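import Pool.Agent.Q147.TG.Hyp

/-!
# Monomials in a box
-/

set_option autoImplicit false

namespace Pool.Agent.Q147.TG

open Module
open Pool.Agent.Y787 (QC mem_QC HypC hyperplane)

section
variable {G : Type*} [CommGroup G] {r : ℕ}

/-- the monomial `g ^ m` -/
def mon (g : Fin r → G) (m : Fin r → ℤ) : G := ∏ i, g i ^ m i

theorem mon_zero (g : Fin r → G) : mon g 0 = 1 := by simp [mon]

theorem mon_add (g : Fin r → G) (m m' : Fin r → ℤ) : mon g (m + m') = mon g m * mon g m' := by
  simp only [mon, Pi.add_apply, zpow_add, Finset.prod_mul_distrib]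

theorem mon_neg (g : Fin r → G) (m : Fin r → ℤ) : mon g (-m) = (mon g m)⁻¹ := by
  simp only [mon, Pi.neg_apply, zpow_neg, Finset.prod_inv_distrib]

theorem mon_sub (g : Fin r → G) (m m' : Fin r → ℤ) : mon g (m - m') = mon g m / mon g m' := by
  rw [sub_eq_add_neg, mon_add, mon_neg, div_eq_mul_inv]

theorem mon_smul (g : Fin r → G) (n : ℤ) (m : Fin r → ℤ) : mon g (n • m) = mon g m ^ n := by
  simp only [mon, Pi.smul_apply, smul_eq_mul]
  rw [← Finset.prod_zpow]
  exact Finset.prod_congr rfl fun i _ => by rw [mul_comm, zpow_mul]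

theorem mon_sum {ι : Type*} (s : Finset ι) (g : Fin r → G) (n : ι → ℤ) (m : ι → Fin r → ℤ) :
    mon g (∑ j ∈ s, n j • m j) = ∏ j ∈ s, mon g (m j) ^ n j := by
  classical
  induction s using Finset.induction_on with
  | empty => simp [mon_zero]
  | insert a s ha ih => rw [Finset.sum_insert ha, Finset.prod_insert ha, mon_add, ih, mon_smul]

/-- the group of the monomials -/
def grp (g : Fin r → G) : Subgroup G where
  carrier := Set.range (mon g)
  one_mem' := ⟨0, mon_zero g⟩
  mul_mem' := by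
    rintro _ _ ⟨a, rfl⟩ ⟨b, rfl⟩
    exact ⟨a + b, mon_add g a b⟩
  inv_mem' := by
    rintro _ ⟨a, rfl⟩
    exact ⟨-a, mon_neg g a⟩

end

variable {k Ω : Type*} [Field k] [Field Ω] [Algebra k Ω]

theorem rankLe_grp {r : ℕ} (g : Fin r → Ωˣ) : RankLe k (grp g) r := by
  intro x hx
  choose a ha using hx
  have hdep : ¬ LinearIndependent ℤ a := by
    intro h
    have := h.fintype_card_le_finrank
    rw [Fintype.card_fin, finrank_fin_fun] at this
    omega
  rw [Fintype.not_linearIndependent_iff] at hdep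
  obtain ⟨n, hn, i, hi⟩ := hdep
  refine ⟨n, fun h => hi (congrFun h i), ?_⟩
  have : ∏ i, x i ^ n i = 1 := by
    rw [← mon_zero g, ← hn, mon_sum]
    exact Finset.prod_congr rfl fun i _ => by rw [ha]
  rw [this, Units.val_one]
  exact cst_one

/-- no monomial is constant, except `1` -/
def Free (k : Type*) {Ω : Type*} [Field k] [Field Ω] [Algebra k Ω] {r : ℕ} (g : Fin r → Ωˣ) : Prop :=
  ∀ m : Fin r → ℤ, Cst k ((mon g m : Ωˣ) : Ω) → m = 0

theorem Free.inj {r : ℕ} {g : Fin r → Ωˣ} (hg : Free k g) {m m' : Fin r → ℤ}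
    (h : Cst k ((mon g m / mon g m' : Ωˣ) : Ω)) : m = m' := by
  rw [← mon_sub] at h
  exact sub_eq_zero.1 (hg _ h)

theorem Free.injective {r : ℕ} {g : Fin r → Ωˣ} (hg : Free k g) : Function.Injective (mon g) := by
  intro m m' h
  refine hg.inj (k := k) ?_
  rw [h, div_self', Units.val_one]
  exact cst_one

theorem Free.sep [DecidableEq Ωˣ] {r : ℕ} {g : Fin r → Ωˣ} (hg : Free k g)
    (S : Finset (Fin r → ℤ)) : Sep k (S.image (mon g)) := by
  intro x hx y hy h
  obtain ⟨m, -, rfl⟩ := Finset.mem_image.1 hx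
  obtain ⟨m', -, rfl⟩ := Finset.mem_image.1 hy
  rw [hg.inj h]

/-- at most `binom (N + r - 1) r` monomials in a space of dimension `N` -/
theorem card_in_space (hk : AC k Ω) {r N : ℕ} {g : Fin r → Ωˣ} (hg : Free k g)
    (W : Submodule k Ω) [FiniteDimensional k W] (hW : finrank k W ≤ N) (S : Finset (Fin r → ℤ))
    (hS : ∀ m ∈ S, ((mon g m : Ωˣ) : Ω) ∈ W) : S.card ≤ Nat.multichoose N r := by
  classical
  rw [← Finset.card_image_of_injective S hg.injective]
  refine card_classes hk r N (grp g) (rankLe_grp g) W hW _ ?_ ?_ (hg.sep S)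
  · intro x hx
    obtain ⟨m, -, rfl⟩ := Finset.mem_image.1 hx
    exact ⟨m, rfl⟩
  · intro x hx
    obtain ⟨m, hm, rfl⟩ := Finset.mem_image.1 hx
    exact hS m hm

/-- dependent tuples -/
theorem card_dep (hk : AC k Ω) {r N : ℕ} {g : Fin r → Ωˣ} (hg : Free k g)
    (S : Finset (Fin r → ℤ)) (T : Finset (Fin (N + 1) → Fin r → ℤ))
    (hT : ∀ τ ∈ T, (∀ i, τ i ∈ S) ∧
      ¬ LinearIndependent k (fun i => (((mon g (τ i))⁻¹ : Ωˣ) : Ω))) :
    T.card ≤ (N + 1) * (Nat.multichoose N r * S.card ^ N) := by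
  classical
  have key : ∀ τ ∈ T, ∃ j, (((mon g (τ j))⁻¹ : Ωˣ) : Ω) ∈
      Submodule.span k (Set.range fun i : Fin N => (((mon g (τ (j.succAbove i)))⁻¹ : Ωˣ) : Ω)) := by
    intro τ hτ
    have h := (hT τ hτ).2
    rw [linearIndependent_iff_notMem_span] at h
    push Not at h
    obtain ⟨j, hj⟩ := h
    refine ⟨j, Submodule.span_mono ?_ hj⟩
    rintro _ ⟨i, ⟨-, hi⟩, rfl⟩
    obtain ⟨i', rfl⟩ := Fin.exists_succAbove_eq (x := i) (y := j) hi
    exact ⟨i', rfl⟩
  choose! ι hι using key
  have h1 : ∀ j ∈ T.image ι, (T.filter fun τ => ι τ = j).card ≤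
      Nat.multichoose N r * S.card ^ N := by
    intro j _
    have h2 : ∀ σ ∈ (T.filter fun τ => ι τ = j).image (fun τ (i : Fin N) => τ (j.succAbove i)),
        ((T.filter fun τ => ι τ = j).filter fun τ => (fun (i : Fin N) => τ (j.succAbove i)) = σ).card ≤
          Nat.multichoose N r := by
      intro σ _
      have hinj : Set.InjOn (fun τ : Fin (N + 1) → Fin r → ℤ => -(τ j))
          (((T.filter fun τ => ι τ = j).filter fun τ =>
            (fun (i : Fin N) => τ (j.succAbove i)) = σ) : Set (Fin (N + 1) → Fin r → ℤ)) := by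
        intro τ hτ τ' hτ' h
        rw [Finset.mem_coe, Finset.mem_filter] at hτ hτ'
        funext i
        by_cases hij : i = j
        · rw [hij]
          exact neg_injective h
        · obtain ⟨i', rfl⟩ := Fin.exists_succAbove_eq (x := i) (y := j) hij
          have h3 : τ (j.succAbove i') = σ i' := congrFun hτ.2 i'
          have h4 : τ' (j.succAbove i') = σ i' := congrFun hτ'.2 i'
          rw [h3, h4]
      rw [← Finset.card_image_of_injOn hinj]
      have hfin : FiniteDimensional k
          (Submodule.span k (Set.range fun i : Fin N => (((mon g (σ i))⁻¹ : Ωˣ) : Ω))) :=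
        FiniteDimensional.span_of_finite k (Set.finite_range _)
      refine card_in_space hk hg
        (Submodule.span k (Set.range fun i : Fin N => (((mon g (σ i))⁻¹ : Ωˣ) : Ω))) ?_ _ ?_
      · exact (finrank_range_le_card _).trans (by rw [Fintype.card_fin])
      · intro m hm
        obtain ⟨τ, hτ, rfl⟩ := Finset.mem_image.1 hm
        rw [Finset.mem_filter, Finset.mem_filter] at hτ
        obtain ⟨⟨hτT, hj⟩, hσ⟩ := hτ
        rw [mon_neg]
        have := hι τ hτT
        rw [hj] at this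
        rw [← hσ]
        exact this
    refine (Finset.card_le_mul_card_image _ _ h2).trans (Nat.mul_le_mul_left _ ?_)
    refine (Finset.card_le_card (t := Fintype.piFinset fun _ : Fin N => S) ?_).trans ?_
    · intro σ hσ
      obtain ⟨τ, hτ, rfl⟩ := Finset.mem_image.1 hσ
      rw [Fintype.mem_piFinset]
      exact fun i => (hT τ (Finset.mem_of_mem_filter τ hτ)).1 _
    · rw [Fintype.card_piFinset, Finset.prod_const, Finset.card_univ, Fintype.card_fin]
  have h2 := Finset.card_le_mul_card_image T _ h1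
  refine h2.trans ?_
  rw [mul_comm]
  refine Nat.mul_le_mul_right _ ?_
  exact (Finset.card_le_univ _).trans (by rw [Fintype.card_fin])

end Pool.Agent.Q147.TG
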