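import Pool.Agent.Q147.TG.Val

/-!
# The number of classes
-/

set_option autoImplicit false

namespace Pool.Agent.Q147.TG

open Module

variable {k Ω : Type*} [Field k] [Field Ω] [Algebra k Ω]

theorem cst_zero : Cst k (0 : Ω) := ⟨0, map_zero _⟩
theorem cst_one : Cst k (1 : Ω) := ⟨1, map_one _⟩
theorem Cst.mul {x y : Ω} (hx : Cst k x) (hy : Cst k y) : Cst k (x * y) := by
  obtain ⟨a, rfl⟩ := hx
  obtain ⟨b, rfl⟩ := hy
  exact ⟨a * b, map_mul _ _ _⟩
theorem Cst.inv {x : Ω} (hx : Cst k x) : Cst k x⁻¹ := by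
  obtain ⟨a, rfl⟩ := hx
  exact ⟨a⁻¹, map_inv₀ _ _⟩

/-- the elements of `Γ` with valuation `1` -/
def kerSub (V : ValuationSubring Ω) (Γ : Subgroup Ωˣ) : Subgroup Ωˣ where
  carrier := {x | x ∈ Γ ∧ V.valuation (x : Ω) = 1}
  one_mem' := ⟨Γ.one_mem, by rw [Units.val_one, map_one]⟩
  mul_mem' := fun {a b} ha hb => ⟨Γ.mul_mem ha.1 hb.1, by
    rw [Units.val_mul, map_mul, ha.2, hb.2, one_mul]⟩
  inv_mem' := fun {a} ha => ⟨Γ.inv_mem ha.1, by
    rw [Units.val_inv_eq_inv_val, map_inv₀, ha.2, inv_one]⟩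

theorem zpow_lt_one {G : Type*} [LinearOrderedCommGroupWithZero G] {x : G} (h0 : x ≠ 0) (h1 : x < 1)
    {n : ℤ} (hn : x ^ n = 1) : n = 0 := by
  by_contra hne
  rcases lt_or_gt_of_ne hne with h | h
  · have h2 : x⁻¹ ^ (-n).toNat = 1 := by
      rw [inv_pow, ← zpow_natCast, Int.toNat_of_nonneg (by omega), zpow_neg, inv_inv, hn]
    have h3 : (1 : G) < x⁻¹ := (one_lt_inv₀ (zero_lt_iff.2 h0)).2 h1
    have h4 := one_lt_pow₀ h3 (n := (-n).toNat) (by omega)
    rw [h2] at h4
    exact lt_irrefl _ h4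
  · have h2 : x ^ n.toNat = 1 := by
      rw [← zpow_natCast, Int.toNat_of_nonneg (by omega), hn]
    have h4 := pow_lt_one₀ zero_le h1 (n := n.toNat) (by omega)
    rw [h2] at h4
    exact lt_irrefl _ h4

theorem rankLe_kerSub {Γ : Subgroup Ωˣ} {r : ℕ} (hΓ : RankLe k Γ (r + 1)) {V : ValuationSubring Ω}
    (hV : ∀ c : k, c ≠ 0 → V.valuation (algebraMap k Ω c) = 1) {u : Ωˣ} (hu : u ∈ Γ)
    (hu1 : V.valuation (u : Ω) < 1) : RankLe k (kerSub V Γ) r := by
  intro x hx
  obtain ⟨m, hm0, hm⟩ := hΓ (Fin.snoc x u) (fun i => by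
    refine Fin.lastCases ?_ (fun i => ?_) i
    · rw [Fin.snoc_last]; exact hu
    · rw [Fin.snoc_castSucc]; exact (hx i).1)
  rw [Fin.prod_univ_castSucc] at hm
  simp only [Fin.snoc_castSucc, Fin.snoc_last] at hm
  have hval : ∀ y : Ωˣ, V.valuation (y : Ω) ≠ 0 := fun y => (Valuation.ne_zero_iff _).2 y.ne_zero
  have h1 : V.valuation (((∏ i : Fin (r + 1), x i ^ m i.castSucc : Ωˣ) : Ω)) = 1 := by
    have : ∏ i : Fin (r + 1), x i ^ m i.castSucc ∈ kerSub V Γ :=
      Subgroup.prod_mem _ fun i _ => Subgroup.zpow_mem _ (hx i) _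
    exact this.2
  have h2 : m (Fin.last (r + 1)) = 0 := by
    refine zpow_lt_one (hval u) hu1 ?_
    obtain ⟨c, hc⟩ := hm
    have hc0 : c ≠ 0 := by
      rintro rfl
      rw [map_zero] at hc
      exact (Units.ne_zero _) hc.symm
    have h3 := hV c hc0
    rw [hc, Units.val_mul, map_mul, h1, one_mul, Units.val_zpow_eq_zpow_val, map_zpow₀] at h3
    exact h3
  refine ⟨fun i => m i.castSucc, fun h => hm0 ?_, ?_⟩
  · funext i
    refine Fin.lastCases ?_ (fun i => ?_) i
    · exact h2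
    · exact congrFun h i
  · rw [h2, zpow_zero, mul_one] at hm
    exact hm

/-- `x⁻¹ W` -/
noncomputable def shift (x : Ωˣ) (W : Submodule k Ω) : Submodule k Ω :=
  W.map (LinearMap.mulLeft k ((x⁻¹ : Ωˣ) : Ω))

theorem mem_shift {x : Ωˣ} {W : Submodule k Ω} {y : Ω} :
    y ∈ shift x W ↔ (x : Ω) * y ∈ W := by
  constructor
  · rintro ⟨z, hz, rfl⟩
    rw [LinearMap.mulLeft_apply, ← mul_assoc, Units.mul_inv, one_mul]
    exact hz
  · intro h
    refine ⟨(x : Ω) * y, h, ?_⟩
    rw [LinearMap.mulLeft_apply, ← mul_assoc, Units.inv_mul, one_mul]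

instance (x : Ωˣ) (W : Submodule k Ω) [FiniteDimensional k W] : FiniteDimensional k (shift x W) :=
  Module.Finite.map _ _

theorem finrank_shift_le (x : Ωˣ) (W : Submodule k Ω) [FiniteDimensional k W] :
    finrank k (shift x W) ≤ finrank k W := Submodule.finrank_map_le _ _

/-- elements in different classes modulo the constants -/
def Sep (k : Type*) {Ω : Type*} [Field k] [Field Ω] [Algebra k Ω] (B : Finset Ωˣ) : Prop :=
  ∀ x ∈ B, ∀ y ∈ B, Cst k ((x / y : Ωˣ) : Ω) → x = y

theorem Sep.mono {B B' : Finset Ωˣ} (h : Sep k B) (hB : B' ⊆ B) : Sep k B' :=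
  fun x hx y hy => h x (hB hx) y (hB hy)

theorem card_le_one_of_cst {Γ : Subgroup Ωˣ} (h : ∀ u ∈ Γ, Cst k ((u : Ωˣ) : Ω)) {B : Finset Ωˣ}
    (hB : ∀ x ∈ B, x ∈ Γ) (hs : Sep k B) : B.card ≤ 1 :=
  Finset.card_le_one.2 fun x hx y hy =>
    hs x hx y hy (h _ (Γ.div_mem (hB x hx) (hB y hy)))

theorem rank_zero (hk : AC k Ω) {Γ : Subgroup Ωˣ} (hΓ : RankLe k Γ 0) :
    ∀ u ∈ Γ, Cst k ((u : Ωˣ) : Ω) := by
  intro u hu
  obtain ⟨m, hm0, c, hc⟩ := hΓ (fun _ => u) (fun _ => hu)
  rw [Fin.prod_univ_succ, Fin.prod_univ_zero, mul_one] at hc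
  have h0 : m 0 ≠ 0 := fun h => hm0 (by
    funext i
    rw [Fin.fin_one_eq_zero i]
    exact h)
  apply hk
  have h1 : IsAlgebraic k ((u : Ω) ^ (m 0)) := by
    rw [← Units.val_zpow_eq_zpow_val, ← hc]
    exact isAlgebraic_algebraMap c
  rcases lt_or_gt_of_ne h0 with h | h
  · have h2 : IsAlgebraic k ((u : Ω) ^ (-(m 0)).toNat) := by
      rw [← zpow_natCast, Int.toNat_of_nonneg (by omega), zpow_neg]
      exact h1.inv
    exact h2.of_pow (by omega)
  · have h2 : IsAlgebraic k ((u : Ω) ^ (m 0).toNat) := by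
      rw [← zpow_natCast, Int.toNat_of_nonneg (by omega)]
      exact h1
    exact h2.of_pow (by omega)

/-- division of a set of units by a unit -/
theorem exists_quot [DecidableEq Ωˣ] (X : Finset Ωˣ) (x₀ : Ωˣ) (hs : Sep k X) :
    (X.image (fun x => x / x₀)).card = X.card ∧ Sep k (X.image (fun x => x / x₀)) := by
  constructor
  · exact Finset.card_image_of_injective _ fun a b h => by
      have h : a / x₀ = b / x₀ := h
      exact div_left_injective h
  · intro x hx y hy hxy
    rw [Finset.mem_image] at hx hy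
    obtain ⟨a, ha, rfl⟩ := hx
    obtain ⟨b, hb, rfl⟩ := hy
    rw [div_div_div_cancel_right] at hxy
    rw [hs a ha b hb hxy]

/-- **A group of rank `r` modulo the constants meets a space of dimension `D` in at most
`binom (D + r - 1) r` classes.** -/
theorem card_classes (hk : AC k Ω) (r : ℕ) : ∀ (D : ℕ) (Γ : Subgroup Ωˣ), RankLe k Γ r →
    ∀ (W : Submodule k Ω) [FiniteDimensional k W], finrank k W ≤ D →
    ∀ B : Finset Ωˣ, (∀ x ∈ B, x ∈ Γ) → (∀ x ∈ B, (x : Ω) ∈ W) → Sep k B →
      B.card ≤ Nat.multichoose D r := by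
  classical
  induction r with
  | zero =>
    intro D Γ hΓ W _ hW B hB _ hs
    rw [Nat.multichoose_zero_right]
    exact card_le_one_of_cst (rank_zero hk hΓ) hB hs
  | succ r ih =>
    intro D
    induction D with
    | zero =>
      intro Γ hΓ W _ hW B hB hBW hs
      have h0 : W = ⊥ := Submodule.finrank_eq_zero.1 (Nat.le_zero.1 hW)
      have : B = ∅ := by
        rw [Finset.eq_empty_iff_forall_notMem]
        intro x hx
        have := hBW x hx
        rw [h0, Submodule.mem_bot] at this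
        exact x.ne_zero this
      rw [this]
      simp
    | succ D ihD =>
      intro Γ hΓ W _ hW B hB hBW hs
      by_cases hc : ∀ u ∈ Γ, Cst k ((u : Ωˣ) : Ω)
      · refine (card_le_one_of_cst hc hB hs).trans ?_
        have : 0 < Nat.multichoose (D + 1) (r + 1) := by
          rw [Nat.multichoose_eq]
          exact Nat.choose_pos (by omega)
        omega
      push Not at hc
      obtain ⟨u, hu, huc⟩ := hc
      obtain ⟨V, hV, hu1⟩ := exists_place hk u huc
      rcases B.eq_empty_or_nonempty with rfl | hne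
      · simp
      obtain ⟨x₀, hx₀, hmax⟩ := B.exists_max_image (fun x => V.valuation (x : Ω)) hne
      have hγ : V.valuation (x₀ : Ω) ≠ 0 := (Valuation.ne_zero_iff _).2 x₀.ne_zero
      rw [Nat.multichoose_succ_succ]
      have hfin : FiniteDimensional k (ltSub hV W _ hγ) :=
        Submodule.finiteDimensional_of_le (ltSub_le hV W _ hγ)
      -- the elements with smaller valuation
      have h1 : (B.filter fun x : Ωˣ => V.valuation (x : Ω) < V.valuation (x₀ : Ω)).card ≤
          Nat.multichoose D (r + 1) := by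
        refine ihD Γ hΓ (ltSub hV W _ hγ) ?_ _ (fun x hx => hB x (Finset.mem_of_mem_filter x hx))
          (fun x hx => ⟨hBW x (Finset.mem_of_mem_filter x hx), (Finset.mem_filter.1 hx).2⟩)
          (hs.mono (Finset.filter_subset _ _))
        have := finrank_ltSub hV hγ (hBW x₀ hx₀) rfl
        omega
      -- the elements with the same valuation
      have h2 : (B.filter fun x : Ωˣ => ¬ V.valuation (x : Ω) < V.valuation (x₀ : Ω)).card ≤
          Nat.multichoose (D + 1) r := by
        obtain ⟨e1, e2⟩ := exists_quot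
          (B.filter fun x : Ωˣ => ¬ V.valuation (x : Ω) < V.valuation (x₀ : Ω)) x₀
          (hs.mono (Finset.filter_subset _ _))
        rw [← e1]
        refine ih (D + 1) (kerSub V Γ) (rankLe_kerSub hΓ hV hu hu1) (shift x₀ W)
          ((finrank_shift_le x₀ W).trans hW) _ ?_ ?_ e2
        · intro y hy
          obtain ⟨x, hx, rfl⟩ := Finset.mem_image.1 hy
          obtain ⟨hx1, hx2⟩ := Finset.mem_filter.1 hx
          refine ⟨Γ.div_mem (hB x hx1) (hB x₀ hx₀), ?_⟩
          have : V.valuation (x : Ω) = V.valuation (x₀ : Ω) :=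
            le_antisymm (hmax x hx1) (not_lt.1 hx2)
          rw [Units.val_div_eq_div_val, map_div₀, this, div_self hγ]
        · intro y hy
          obtain ⟨x, hx, rfl⟩ := Finset.mem_image.1 hy
          obtain ⟨hx1, hx2⟩ := Finset.mem_filter.1 hx
          rw [mem_shift, ← Units.val_mul, mul_div_cancel]
          exact hBW x hx1
      have h3 := Finset.card_filter_add_card_filter_not (s := B)
        (fun x : Ωˣ => V.valuation (x : Ω) < V.valuation (x₀ : Ω))
      omega

/-- **The number of classes of `t` in `Γ` for which `t Y` meets `W`.** -/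
theorem card_meet (hk : AC k Ω) {N M : ℕ} (r : ℕ) : ∀ (Γ : Subgroup Ωˣ), RankLe k Γ r →
    ∀ (Y W : Submodule k Ω) [FiniteDimensional k Y] [FiniteDimensional k W],
    finrank k Y ≤ N → finrank k W ≤ M →
    ∀ B : Finset Ωˣ, (∀ x ∈ B, x ∈ Γ) → (∀ x ∈ B, ∃ y ∈ Y, y ≠ 0 ∧ (x : Ω) * y ∈ W) → Sep k B →
      B.card ≤ (M * N) ^ r := by
  classical
  induction r with
  | zero =>
    intro Γ hΓ Y W _ _ _ _ B hB _ hs
    rw [pow_zero]
    exact card_le_one_of_cst (rank_zero hk hΓ) hB hs
  | succ r ih =>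
    intro Γ hΓ Y W _ _ hY hW B hB hBW hs
    by_cases hc : ∀ u ∈ Γ, Cst k ((u : Ωˣ) : Ω)
    · rcases B.eq_empty_or_nonempty with rfl | ⟨x, hx⟩
      · simp
      refine (card_le_one_of_cst hc hB hs).trans (Nat.one_le_pow _ _ ?_)
      obtain ⟨y, hy, hy0, hyW⟩ := hBW x hx
      have h1 : 0 < finrank k Y := by
        have : Nontrivial Y := ⟨⟨⟨y, hy⟩, 0, fun h => hy0 (congrArg Subtype.val h)⟩⟩
        exact finrank_pos
      have h2 : 0 < finrank k W := by
        have : Nontrivial W := ⟨⟨⟨_, hyW⟩, 0, fun h =>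
          (mul_ne_zero x.ne_zero hy0) (congrArg Subtype.val h)⟩⟩
        exact finrank_pos
      exact Nat.mul_pos (by omega) (by omega)
    push Not at hc
    obtain ⟨u, hu, huc⟩ := hc
    obtain ⟨V, hV, hu1⟩ := exists_place hk u huc
    choose! y hy hy0 hyW using hBW
    -- the valuations of the elements of a space
    have hvals : ∀ (n : ℕ) (Z : Submodule k Ω) [FiniteDimensional k Z], finrank k Z ≤ n →
        ∀ f : Ωˣ → Ω, (∀ x ∈ B, f x ∈ Z ∧ f x ≠ 0) →
        (B.image fun x : Ωˣ => V.valuation (f x)).card ≤ n := by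
      intro n Z _ hZ f hf
      obtain ⟨T, hT, hTinj, hTim⟩ : ∃ T : Finset Ωˣ, T ⊆ B ∧
          Set.InjOn (fun x => V.valuation (f x)) (T : Set Ωˣ) ∧
          T.image (fun x => V.valuation (f x)) = B.image fun x : Ωˣ => V.valuation (f x) := by
        obtain ⟨T, hT1, hT3, hT2⟩ := Finset.exists_subset_injOn_image_eq_of_surjOn (B : Set Ωˣ)
          (B.image fun x : Ωˣ => V.valuation (f x)) (f := fun x : Ωˣ => V.valuation (f x)) (by
            intro z hz
            obtain ⟨x, hx, rfl⟩ := Finset.mem_image.1 (Finset.mem_coe.1 hz)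
            exact ⟨x, hx, rfl⟩)
        exact ⟨T, Finset.coe_subset.1 hT1, hT3, hT2⟩
      rw [← hTim, Finset.card_image_of_injOn hTinj]
      have hTinj' : Set.InjOn f (T : Set Ωˣ) := fun a ha b hb h => hTinj ha hb (by
        change V.valuation (f a) = V.valuation (f b)
        rw [h])
      rw [← Finset.card_image_of_injOn hTinj']
      refine card_values hV n Z hZ _ ?_ ?_
      · intro z hz
        obtain ⟨x, hx, rfl⟩ := Finset.mem_image.1 hz
        exact hf x (hT hx)
      · intro a ha b hb h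
        obtain ⟨x, hx, rfl⟩ := Finset.mem_image.1 ha
        obtain ⟨x', hx', rfl⟩ := Finset.mem_image.1 hb
        rw [hTinj hx hx' h]
    have hcard : (B.image fun x : Ωˣ => V.valuation (x : Ω)).card ≤ M * N := by
      refine le_trans (Finset.card_le_card (t := ((B.image fun x : Ωˣ => V.valuation ((x : Ω) * y x)) ×ˢ
        (B.image fun x : Ωˣ => V.valuation (y x))).image fun p => p.1 / p.2) ?_) ?_
      · intro γ hγ
        obtain ⟨x, hx, rfl⟩ := Finset.mem_image.1 hγ
        refine Finset.mem_image.2 ⟨(V.valuation ((x : Ω) * y x), V.valuation (y x)),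
          Finset.mem_product.2 ⟨Finset.mem_image_of_mem _ hx, Finset.mem_image_of_mem _ hx⟩, ?_⟩
        have : V.valuation (y x) ≠ 0 := (Valuation.ne_zero_iff _).2 (hy0 x hx)
        change V.valuation ((x : Ω) * y x) / V.valuation (y x) = _
        rw [map_mul, mul_div_cancel_right₀ _ this]
      · refine Finset.card_image_le.trans ?_
        rw [Finset.card_product]
        exact Nat.mul_le_mul (hvals M W hW _ fun x hx =>
          ⟨hyW x hx, mul_ne_zero x.ne_zero (hy0 x hx)⟩) (hvals N Y hY _ fun x hx =>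
          ⟨hy x hx, hy0 x hx⟩)
    -- the fibres
    have hfib : ∀ γ ∈ B.image (fun x : Ωˣ => V.valuation (x : Ω)),
        (B.filter fun x : Ωˣ => V.valuation (x : Ω) = γ).card ≤ (M * N) ^ r := by
      intro γ hγ
      obtain ⟨x₀, hx₀, rfl⟩ := Finset.mem_image.1 hγ
      have hγ0 : V.valuation (x₀ : Ω) ≠ 0 := (Valuation.ne_zero_iff _).2 x₀.ne_zero
      obtain ⟨e1, e2⟩ := exists_quot
        (B.filter fun x : Ωˣ => V.valuation (x : Ω) = V.valuation (x₀ : Ω)) x₀
        (hs.mono (Finset.filter_subset _ _))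
      rw [← e1]
      refine ih (kerSub V Γ) (rankLe_kerSub hΓ hV hu hu1) Y (shift x₀ W) hY
        ((finrank_shift_le x₀ W).trans hW) _ ?_ ?_ e2
      · intro z hz
        obtain ⟨x, hx, rfl⟩ := Finset.mem_image.1 hz
        obtain ⟨hx1, hx2⟩ := Finset.mem_filter.1 hx
        refine ⟨Γ.div_mem (hB x hx1) (hB x₀ hx₀), ?_⟩
        rw [Units.val_div_eq_div_val, map_div₀, hx2, div_self hγ0]
      · intro z hz
        obtain ⟨x, hx, rfl⟩ := Finset.mem_image.1 hz
        obtain ⟨hx1, -⟩ := Finset.mem_filter.1 hx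
        refine ⟨y x, hy x hx1, hy0 x hx1, ?_⟩
        rw [mem_shift, ← mul_assoc, ← Units.val_mul, mul_div_cancel]
        exact hyW x hx1
    have h := Finset.card_eq_sum_card_image (fun x : Ωˣ => V.valuation (x : Ω)) B
    rw [h, pow_succ']
    refine (Finset.sum_le_card_nsmul _ _ _ hfib).trans ?_
    rw [smul_eq_mul]
    exact Nat.mul_le_mul_right _ hcard

end Pool.Agent.Q147.TG
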