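import Pool.Agent.Q147.TG.Cls
import Pool.Agent.Y787.Base

/-!
# The hyperplane theorem on translates of a space by the elements of a group
-/

set_option autoImplicit false

namespace Pool.Agent.Q147.TG

open Module
open Pool.Agent.Y787 (QC mem_QC HypC hyperplane)

variable {Cc : Type} [Field Cc] [CharZero Cc]

theorem cst_iff {x : Cc} : Cst (QC Cc) x ↔ IsAlgebraic ℚ x := by
  rw [← mem_QC]
  constructor
  · rintro ⟨a, rfl⟩
    exact a.2
  · intro h
    exact ⟨⟨x, h⟩, rfl⟩

theorem ac_QC : AC (QC Cc) Cc := by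
  intro x hx
  rw [cst_iff]
  have halg : Algebra.IsAlgebraic ℚ (QC Cc) := algebraicClosure.isAlgebraic ℚ Cc
  exact hx.restrictScalars ℚ

variable {Lt : Submodule (QC Cc) Cc} [HypC Lt]

/-- the vectors with coordinates in `Lt` in a hyperplane -/
def hypSub (Lt : Submodule (QC Cc) Cc) {d : ℕ} (x : Fin d → Cc) :
    Submodule (QC Cc) (Fin d → Cc) where
  carrier := {z | (∀ i, z i ∈ Lt) ∧ ∑ i, x i * z i = 0}
  zero_mem' := ⟨fun i => Lt.zero_mem, by simp⟩
  add_mem' := fun {a b} ha hb => ⟨fun i => Lt.add_mem (ha.1 i) (hb.1 i), by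
    have : ∑ i, x i * (a + b) i = ∑ i, x i * a i + ∑ i, x i * b i := by
      rw [← Finset.sum_add_distrib]
      exact Finset.sum_congr rfl fun i _ => by rw [Pi.add_apply, mul_add]
    rw [this, ha.2, hb.2, add_zero]⟩
  smul_mem' := fun c a ha => ⟨fun i => Lt.smul_mem c (ha.1 i), by
    have : ∑ i, x i * (c • a) i = c • ∑ i, x i * a i := by
      rw [Finset.smul_sum]
      exact Finset.sum_congr rfl fun i _ => by rw [Pi.smul_apply, mul_smul_comm]
    rw [this, ha.2, smul_zero]⟩

theorem rank_hypSub {d : ℕ} (x : Fin d → Cc) (hx : LinearIndependent (QC Cc) x) :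
    Module.rank (QC Cc) (hypSub Lt x) ≤ (d * (d - 1) : ℕ) := by
  refine rank_le fun s hs => ?_
  have e := s.equivFin
  have h1 : LinearIndependent (QC Cc)
      (fun j : Fin s.card => (((e.symm j : s) : hypSub Lt x) : Fin d → Cc)) := by
    have h2 := hs.comp e.symm e.symm.injective
    exact h2.map' (hypSub Lt x).subtype (Submodule.ker_subtype _)
  exact hyperplane (Lt := Lt) d s.card x (fun i j => (((e.symm j : s) : hypSub Lt x) : Fin d → Cc) i)
    hx (fun i j => ((e.symm j : s) : hypSub Lt x).2.1 i) (fun j => ((e.symm j : s) : hypSub Lt x).2.2)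
    h1

/-- **Few elements of a group of rank `r` translate all the spaces `h_i Y` to spaces meeting
`Lt`.** -/
theorem card_tuple {N r : ℕ} (Γ : Subgroup Ccˣ) (hΓ : RankLe (QC Cc) Γ r)
    (Y : Submodule (QC Cc) Cc) [FiniteDimensional (QC Cc) Y] (hY : finrank (QC Cc) Y ≤ N)
    (h : Fin (N + 1) → Ccˣ)
    (hli : LinearIndependent (QC Cc) (fun i => (((h i)⁻¹ : Ccˣ) : Cc)))
    (B : Finset Ccˣ) (hB : ∀ t ∈ B, t ∈ Γ)
    (hBL : ∀ t ∈ B, ∀ i, ∃ y ∈ Y, y ≠ 0 ∧ (t : Cc) * h i * y ∈ Lt) (hs : Sep (QC Cc) B) :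
    B.card ≤ (N + 1) * ((N + 1) * N * N) ^ r := by
  classical
  have hr := rank_hypSub (Lt := Lt) _ hli
  have hfin : FiniteDimensional (QC Cc) (hypSub Lt fun i => (((h i)⁻¹ : Ccˣ) : Cc)) :=
    Module.rank_lt_aleph0_iff.1 (lt_of_le_of_lt hr (Cardinal.natCast_lt_aleph0))
  have hfr : finrank (QC Cc) (hypSub Lt fun i => (((h i)⁻¹ : Ccˣ) : Cc)) ≤ (N + 1) * N :=
    finrank_le_of_rank_le hr
  let P : Fin (N + 1) → Submodule (QC Cc) Cc := fun i =>
    (hypSub Lt fun i => (((h i)⁻¹ : Ccˣ) : Cc)).map (LinearMap.proj i)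
  have hPf : ∀ i, FiniteDimensional (QC Cc) (P i) := fun i => Module.Finite.map _ _
  have hP : ∀ i, finrank (QC Cc) (P i) ≤ (N + 1) * N := fun i =>
    (Submodule.finrank_map_le _ _).trans hfr
  have key : ∀ t ∈ B, ∃ i, ∃ y ∈ Y, y ≠ 0 ∧ (t : Cc) * y ∈ shift (h i) (P i) := by
    intro t ht
    choose y hy hy0 hyL using hBL t ht
    have hdep : ¬ LinearIndependent (QC Cc) (fun i => (⟨y i, hy i⟩ : Y)) := by
      intro hli'
      have := hli'.fintype_card_le_finrank
      rw [Fintype.card_fin] at this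
      omega
    rw [Fintype.not_linearIndependent_iff] at hdep
    obtain ⟨c, hc, i, hi⟩ := hdep
    have hc' : ∑ i, c i • y i = 0 := by
      have := congrArg (Y.subtype) hc
      rw [map_sum, map_zero] at this
      rw [← this]
      rfl
    refine ⟨i, c i • y i, Y.smul_mem _ (hy i), ?_, ?_⟩
    · rw [Algebra.smul_def]
      refine mul_ne_zero ?_ (hy0 i)
      rw [Ne, map_eq_zero_iff _ (algebraMap (QC Cc) Cc).injective]
      exact hi
    · rw [mem_shift]
      refine ⟨fun j => c j • ((t : Cc) * h j * y j), ⟨fun j => Lt.smul_mem _ (hyL j), ?_⟩, ?_⟩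
      · have : ∀ j, (((h j)⁻¹ : Ccˣ) : Cc) * c j • ((t : Cc) * h j * y j) = t * (c j • y j) := by
          intro j
          have h1 : (((h j)⁻¹ : Ccˣ) : Cc) * h j = 1 := Units.inv_mul _
          calc (((h j)⁻¹ : Ccˣ) : Cc) * c j • ((t : Cc) * h j * y j)
              = c j • ((((h j)⁻¹ : Ccˣ) : Cc) * h j * (t * y j)) := by
                rw [mul_smul_comm]
                congr 1
                ring
            _ = t * (c j • y j) := by rw [h1, one_mul, mul_smul_comm]
        rw [Finset.sum_congr rfl fun j _ => this j, ← Finset.mul_sum, hc', mul_zero]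
      · change c i • ((t : Cc) * h i * y i) = h i * (t * (c i • y i))
        rw [mul_smul_comm, mul_smul_comm]
        congr 1
        ring
  choose! ι hι using key
  have h1 : ∀ i ∈ B.image ι, (B.filter fun t => ι t = i).card ≤ ((N + 1) * N * N) ^ r := by
    intro i _
    refine card_meet ac_QC (N := N) (M := (N + 1) * N) r Γ hΓ Y (shift (h i) (P i)) hY
      ((finrank_shift_le _ _).trans (hP i)) _ (fun t ht => hB t (Finset.mem_of_mem_filter t ht)) ?_
      (hs.mono (Finset.filter_subset _ _))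
    intro t ht
    obtain ⟨h2, h3⟩ := Finset.mem_filter.1 ht
    have := hι t h2
    rwa [h3] at this
  have h2 := Finset.card_le_mul_card_image B _ h1
  refine h2.trans ?_
  rw [mul_comm]
  refine Nat.mul_le_mul_right _ ?_
  exact (Finset.card_le_univ _).trans (by rw [Fintype.card_fin])

end Pool.Agent.Q147.TG
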