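import Pool.Agent.Q147.TG.Box

/-!
# The numbers `t - a_i` are multiplicatively independent modulo the constants
-/

set_option autoImplicit false

namespace Pool.Agent.Q147.TG

open Polynomial

variable {k Ω : Type*} [Field k] [Field Ω] [Algebra k Ω]

theorem sub_ne {t : Ω} (ht : Transcendental k t) (a : k) : t - algebraMap k Ω a ≠ 0 := by
  intro h
  rw [sub_eq_zero] at h
  exact ht (h ▸ isAlgebraic_algebraMap a)

/-- the units `t - a_i` -/
noncomputable def lin {t : Ω} (ht : Transcendental k t) {r : ℕ} (a : Fin r → k) : Fin r → Ωˣ :=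
  fun i => Units.mk0 (t - algebraMap k Ω (a i)) (sub_ne ht (a i))

theorem lin_val {t : Ω} (ht : Transcendental k t) {r : ℕ} (a : Fin r → k) (i : Fin r) :
    ((lin ht a i : Ωˣ) : Ω) = t - algebraMap k Ω (a i) := rfl

theorem mon_lin_val {t : Ω} (ht : Transcendental k t) {r : ℕ} (a : Fin r → k) (m : Fin r → ℤ) :
    ((mon (lin ht a) m : Ωˣ) : Ω) = ∏ i, (t - algebraMap k Ω (a i)) ^ m i := by
  rw [mon, Units.coe_prod]
  exact Finset.prod_congr rfl fun i _ => by rw [Units.val_zpow_eq_zpow_val, lin_val]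

theorem free_lin {t : Ω} (ht : Transcendental k t) {r : ℕ} (a : Fin r → k)
    (ha : Function.Injective a) : Free k (lin ht a) := by
  intro m hm
  by_contra hne
  obtain ⟨c, hc⟩ := hm
  have hc0 : c ≠ 0 := by
    rintro rfl
    rw [map_zero] at hc
    exact (Units.ne_zero _) hc.symm
  let P : k[X] := ∏ i, (X - C (a i)) ^ (m i).toNat
  let Q : k[X] := ∏ i, (X - C (a i)) ^ (-(m i)).toNat
  have hval : ∀ n : Fin r → ℕ, aeval t (∏ i, (X - C (a i)) ^ n i : k[X]) =
      ∏ i, (t - algebraMap k Ω (a i)) ^ n i := by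
    intro n
    rw [map_prod]
    exact Finset.prod_congr rfl fun i _ => by rw [map_pow, map_sub, aeval_X, aeval_C]
  have h1 : aeval t P = aeval t (C c * Q) := by
    rw [map_mul, aeval_C, hc, hval, hval, mon_lin_val, ← Finset.prod_mul_distrib]
    refine Finset.prod_congr rfl fun i _ => ?_
    have h0 := sub_ne ht (a i)
    rw [← zpow_natCast, ← zpow_natCast, ← zpow_add₀ h0]
    congr 1
    omega
  have h2 : P = C c * Q := by
    have := (transcendental_iff_injective.1 ht) h1
    exact this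
  obtain ⟨j, hj⟩ : ∃ j, m j ≠ 0 := by
    by_contra hcon
    push Not at hcon
    exact hne (funext hcon)
  have hev : ∀ n : Fin r → ℕ, eval (a j) (∏ i, (X - C (a i)) ^ n i : k[X]) =
      ∏ i, (a j - a i) ^ n i := by
    intro n
    rw [eval_prod]
    exact Finset.prod_congr rfl fun i _ => by rw [eval_pow, eval_sub, eval_X, eval_C]
  have hz : ∀ n : Fin r → ℕ, 0 < n j → eval (a j) (∏ i, (X - C (a i)) ^ n i : k[X]) = 0 := by
    intro n hn
    rw [hev]
    exact Finset.prod_eq_zero (Finset.mem_univ j) (by rw [sub_self, zero_pow hn.ne'])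
  have hnz : ∀ n : Fin r → ℕ, n j = 0 → eval (a j) (∏ i, (X - C (a i)) ^ n i : k[X]) ≠ 0 := by
    intro n hn
    rw [hev]
    refine Finset.prod_ne_zero_iff.2 fun i _ => ?_
    by_cases hij : i = j
    · rw [hij, hn, pow_zero]
      exact one_ne_zero
    · exact pow_ne_zero _ (sub_ne_zero.2 fun h => hij (ha h).symm)
  have h3 := congrArg (eval (a j)) h2
  rw [eval_mul, eval_C] at h3
  rcases lt_or_gt_of_ne hj with h | h
  · have h4 : eval (a j) P ≠ 0 := hnz _ (by omega)
    have h5 : eval (a j) Q = 0 := hz _ (by omega)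
    rw [h5, mul_zero] at h3
    exact h4 h3
  · have h4 : eval (a j) P = 0 := hz _ (by omega)
    have h5 : eval (a j) Q ≠ 0 := hnz _ (by omega)
    rw [h4] at h3
    exact (mul_ne_zero hc0 h5) h3.symm

end Pool.Agent.Q147.TG
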