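import Pool.Agent.Q147.TG.Box

/-!
# The number of exceptional monomials
-/

set_option autoImplicit false

namespace Pool.Agent.Q147.TG

open Module
open Pool.Agent.Y787 (QC mem_QC HypC hyperplane)

variable {Cc : Type} [Field Cc] [CharZero Cc]

/-- the space `g ^ m Y` meets `Lt` -/
def Exc (Lt : Submodule (QC Cc) Cc) {r : ℕ} (g : Fin r → Ccˣ) (Y : Submodule (QC Cc) Cc)
    (m : Fin r → ℤ) : Prop :=
  ∃ y ∈ Y, y ≠ 0 ∧ ((mon g m : Ccˣ) : Cc) * y ∈ Lt

variable {Lt : Submodule (QC Cc) Cc} [HypC Lt]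

theorem li_scale {n : ℕ} {h h' : Fin n → Ccˣ} (u : Ccˣ) (hh : ∀ i, h' i = u * h i)
    (hli : LinearIndependent (QC Cc) (fun i => ((h i : Ccˣ) : Cc))) :
    LinearIndependent (QC Cc) (fun i => ((h' i : Ccˣ) : Cc)) := by
  have h1 := hli.map' (LinearMap.mulLeft (QC Cc) (u : Cc)) (LinearMap.ker_eq_bot.2 fun a b hab => by
    have hab : (u : Cc) * a = u * b := hab
    exact mul_left_cancel₀ u.ne_zero hab)
  have h2 : (LinearMap.mulLeft (QC Cc) (u : Cc)) ∘ (fun i => ((h i : Ccˣ) : Cc)) =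
      fun i => ((h' i : Ccˣ) : Cc) := by
    funext i
    rw [Function.comp_apply, LinearMap.mulLeft_apply, hh, Units.val_mul]
  rwa [h2] at h1

/-- independent tuples -/
theorem card_ind {N r : ℕ} {g : Fin r → Ccˣ} (hg : Free (QC Cc) g)
    (Y : Submodule (QC Cc) Cc) [FiniteDimensional (QC Cc) Y] (hY : finrank (QC Cc) Y ≤ N)
    (D : Finset (Fin r → ℤ)) (T : Finset (Fin (N + 1) → Fin r → ℤ))
    (hTD : ∀ τ ∈ T, ∀ i, τ i - τ 0 ∈ D) (hTE : ∀ τ ∈ T, ∀ i, Exc Lt g Y (τ i))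
    (hT : ∀ τ ∈ T, LinearIndependent (QC Cc) (fun i => (((mon g (τ i))⁻¹ : Ccˣ) : Cc))) :
    T.card ≤ ((N + 1) * ((N + 1) * N * N) ^ r) * D.card ^ N := by
  classical
  have h1 : ∀ δ ∈ T.image (fun τ (i : Fin N) => τ i.succ - τ 0),
      (T.filter fun τ => (fun (i : Fin N) => τ i.succ - τ 0) = δ).card ≤
        (N + 1) * ((N + 1) * N * N) ^ r := by
    intro δ hδ
    obtain ⟨τ₀, hτ₀, hδ₀⟩ := Finset.mem_image.1 hδ
    have hinj : Set.InjOn (fun τ : Fin (N + 1) → Fin r → ℤ => mon g (τ 0))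
        ((T.filter fun τ => (fun (i : Fin N) => τ i.succ - τ 0) = δ) :
          Set (Fin (N + 1) → Fin r → ℤ)) := by
      intro τ hτ τ' hτ' h
      rw [Finset.mem_coe, Finset.mem_filter] at hτ hτ'
      have h0 : τ 0 = τ' 0 := hg.injective h
      funext i
      refine Fin.cases h0 (fun i => ?_) i
      have h3 : τ i.succ - τ 0 = δ i := congrFun hτ.2 i
      have h4 : τ' i.succ - τ' 0 = δ i := congrFun hτ'.2 i
      rw [sub_eq_iff_eq_add] at h3 h4
      rw [h3, h4, h0]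
    rw [← Finset.card_image_of_injOn hinj]
    -- the translates
    let h : Fin (N + 1) → Ccˣ := Fin.cons 1 fun i => mon g (δ i)
    have hh : ∀ τ : Fin (N + 1) → Fin r → ℤ, (fun (i : Fin N) => τ i.succ - τ 0) = δ →
        ∀ i, mon g (τ i) = mon g (τ 0) * h i := by
      intro τ hτ i
      refine Fin.cases ?_ (fun i => ?_) i
      · change _ = _ * (1 : Ccˣ)
        rw [mul_one]
      · change _ = _ * mon g (δ i)
        rw [← hτ, mon_sub, mul_div_cancel]
    have hli : LinearIndependent (QC Cc) (fun i => (((h i)⁻¹ : Ccˣ) : Cc)) := by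
      refine li_scale (h := fun i => (mon g (τ₀ i))⁻¹) (mon g (τ₀ 0)) (fun i => ?_) (hT τ₀ hτ₀)
      rw [hh τ₀ hδ₀ i, mul_inv_rev, mul_comm (h i)⁻¹, ← mul_assoc, mul_inv_cancel, one_mul]
    refine card_tuple (Lt := Lt) (N := N) (r := r) (grp g) (rankLe_grp g) Y hY h hli _ ?_ ?_ ?_
    · intro t ht
      obtain ⟨τ, -, rfl⟩ := Finset.mem_image.1 ht
      exact ⟨_, rfl⟩
    · intro t ht i
      obtain ⟨τ, hτ, rfl⟩ := Finset.mem_image.1 ht
      obtain ⟨hτT, hτδ⟩ := Finset.mem_filter.1 hτ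
      obtain ⟨y, hy, hy0, hyL⟩ := hTE τ hτT i
      refine ⟨y, hy, hy0, ?_⟩
      rw [← Units.val_mul, ← hh τ hτδ i]
      exact hyL
    · intro x hx y hy hxy
      obtain ⟨τ, -, rfl⟩ := Finset.mem_image.1 hx
      obtain ⟨τ', -, rfl⟩ := Finset.mem_image.1 hy
      rw [hg.inj hxy]
  refine (Finset.card_le_mul_card_image _ _ h1).trans (Nat.mul_le_mul_left _ ?_)
  refine (Finset.card_le_card (t := Fintype.piFinset fun _ : Fin N => D) ?_).trans ?_
  · intro σ hσ
    obtain ⟨τ, hτ, rfl⟩ := Finset.mem_image.1 hσ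
    rw [Fintype.mem_piFinset]
    exact fun i => hTD τ hτ _
  · rw [Fintype.card_piFinset, Finset.prod_const, Finset.card_univ, Fintype.card_fin]

/-- **The exceptional exponents in a finite set.** -/
theorem card_exc {N r : ℕ} {g : Fin r → Ccˣ} (hg : Free (QC Cc) g)
    (Y : Submodule (QC Cc) Cc) [FiniteDimensional (QC Cc) Y] (hY : finrank (QC Cc) Y ≤ N)
    (S D : Finset (Fin r → ℤ)) (hSD : ∀ a ∈ S, ∀ b ∈ S, b - a ∈ D)
    (hS : ∀ m ∈ S, Exc Lt g Y m) :
    S.card ^ (N + 1) ≤ ((N + 1) * ((N + 1) * N * N) ^ r) * D.card ^ N +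
      (N + 1) * (Nat.multichoose N r * S.card ^ N) := by
  classical
  let A : Finset (Fin (N + 1) → Fin r → ℤ) := Fintype.piFinset fun _ : Fin (N + 1) => S
  have hA : A.card = S.card ^ (N + 1) := by
    rw [Fintype.card_piFinset, Finset.prod_const, Finset.card_univ, Fintype.card_fin]
  have hmem : ∀ τ ∈ A, ∀ i, τ i ∈ S := fun τ hτ i => Fintype.mem_piFinset.1 hτ i
  rw [← hA, ← Finset.card_filter_add_card_filter_not (s := A)
    (fun τ => LinearIndependent (QC Cc) (fun i => (((mon g (τ i))⁻¹ : Ccˣ) : Cc)))]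
  refine Nat.add_le_add ?_ ?_
  · refine card_ind (Lt := Lt) hg Y hY D _ ?_ ?_ ?_
    · intro τ hτ i
      have := hmem τ (Finset.mem_of_mem_filter τ hτ)
      exact hSD _ (this 0) _ (this i)
    · intro τ hτ i
      exact hS _ (hmem τ (Finset.mem_of_mem_filter τ hτ) i)
    · intro τ hτ
      exact (Finset.mem_filter.1 hτ).2
  · refine card_dep ac_QC hg S _ ?_
    intro τ hτ
    exact ⟨hmem τ (Finset.mem_of_mem_filter τ hτ), (Finset.mem_filter.1 hτ).2⟩

/-- the box -/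
noncomputable def box (r H : ℕ) : Finset (Fin r → ℤ) := Fintype.piFinset fun _ => Finset.Icc (-(H : ℤ)) H

theorem mem_box {r H : ℕ} {m : Fin r → ℤ} : m ∈ box r H ↔ ∀ i, |m i| ≤ H := by
  rw [box, Fintype.mem_piFinset]
  exact forall_congr' fun i => by rw [Finset.mem_Icc, abs_le]

theorem card_box (r H : ℕ) : (box r H).card = (2 * H + 1) ^ r := by
  rw [box, Fintype.card_piFinset, Finset.prod_const, Finset.card_univ, Fintype.card_fin,
    Int.card_Icc]
  congr 1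
  omega

/-- the constant -/
def cst (N r : ℕ) : ℕ :=
  (2 * ((N + 1) * Nat.multichoose N r)) ^ (N + 1) +
    2 * ((N + 1) * ((N + 1) * N * N) ^ r) * 5 ^ (r * N)

/-- **The exceptional exponents in a box.** -/
theorem card_exc_box {N r : ℕ} {g : Fin r → Ccˣ} (hg : Free (QC Cc) g)
    (Y : Submodule (QC Cc) Cc) [FiniteDimensional (QC Cc) Y] (hY : finrank (QC Cc) Y ≤ N)
    {H : ℕ} (hH : 1 ≤ H) (S : Finset (Fin r → ℤ)) (hSb : ∀ m ∈ S, ∀ i, |m i| ≤ H)
    (hS : ∀ m ∈ S, Exc Lt g Y m) :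
    S.card ^ (N + 1) ≤ cst N r * H ^ (r * N) := by
  have h1 := card_exc (Lt := Lt) hg Y hY S (box r (2 * H)) (by
    intro a ha b hb
    rw [mem_box]
    intro i
    have h1 := hSb a ha i
    have h2 := hSb b hb i
    rw [Pi.sub_apply, abs_le]
    rw [abs_le] at h1 h2
    push_cast
    constructor <;> linarith [h1.1, h1.2, h2.1, h2.2]) hS
  rw [card_box] at h1
  have h2 : ((2 * (2 * H) + 1) ^ r) ^ N ≤ 5 ^ (r * N) * H ^ (r * N) := by
    rw [← pow_mul, ← mul_pow]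
    exact Nat.pow_le_pow_left (by omega) _
  have h3 : 1 ≤ H ^ (r * N) := Nat.one_le_pow _ _ hH
  generalize hc : (N + 1) * Nat.multichoose N r = c at *
  generalize hK : (N + 1) * ((N + 1) * N * N) ^ r = K at *
  have h4 : S.card ^ (N + 1) ≤ K * (5 ^ (r * N) * H ^ (r * N)) + c * S.card ^ N := by
    refine h1.trans (Nat.add_le_add (Nat.mul_le_mul_left _ h2) (le_of_eq ?_))
    rw [← mul_assoc, hc]
  rw [cst, hc, hK]
  rcases le_or_gt S.card (2 * c) with h5 | h5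
  · calc S.card ^ (N + 1) ≤ (2 * c) ^ (N + 1) := Nat.pow_le_pow_left h5 _
      _ ≤ ((2 * c) ^ (N + 1) + 2 * K * 5 ^ (r * N)) * 1 := by rw [mul_one]; exact Nat.le_add_right _ _
      _ ≤ _ := Nat.mul_le_mul_left _ h3
  · have h6 : 2 * (c * S.card ^ N) ≤ S.card ^ (N + 1) := by
      rw [pow_succ, ← mul_assoc, mul_comm (S.card ^ N)]
      exact Nat.mul_le_mul_right _ h5.le
    have h7 : S.card ^ (N + 1) ≤ 2 * (K * (5 ^ (r * N) * H ^ (r * N))) := by omega
    refine h7.trans ?_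
    rw [add_mul]
    refine le_trans (le_of_eq ?_) (Nat.le_add_left _ _)
    ring

end Pool.Agent.Q147.TG
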