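import Pool.Agent.Q147.TG.Tr2
import Pool.Agent.Q147.TG.Lin
import Pool.Agent.W243.TD.Trdeg
import Pool.Agent.W243.TD.Deg

/-!
# Pairs of exponentials
-/

set_option autoImplicit false

namespace Pool.Agent.Q147.TG

open Module
open Pool.Agent.Y787 (QC mem_QC)
open Pool.Agent.W243.TD (Al exists_theta al_trans)

theorem finite_boxP (r H : ℕ) (P : (Fin r → ℤ) → Prop) :
    {m : Fin r → ℤ | (∀ i, |m i| ≤ H) ∧ P m}.Finite :=
  (box r H).finite_toSet.subset fun _ hm => Finset.mem_coe.2 (mem_box.2 hm.1)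

/-- exponentials algebraic over `ℚ(θ)` -/
theorem count_al {θ : ℂ} (hθ : Transcendental ℚ θ) {r : ℕ} {g : Fin r → ℂˣ}
    (hg : Free (QC ℂ) g) {s : ℂ} (hs : s ≠ 0) {H : ℕ} (hH : 1 ≤ H) :
    {m : Fin r → ℤ | (∀ i, |m i| ≤ H) ∧
      Al θ (Complex.exp (s * ((mon g m : ℂˣ) : ℂ)))}.ncard ^ 3 ≤ cst3 r * H ^ (r * 2) := by
  classical
  rw [Set.ncard_eq_toFinset_card _ (finite_boxP r H _)]
  exact exc_three_box hθ hg hs hH _ (fun m hm => ((finite_boxP r H _).mem_toFinset.1 hm).1)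
    (fun m hm => ((finite_boxP r H _).mem_toFinset.1 hm).2)

/-- exponentials algebraic over a field of transcendence degree at most one -/
theorem count_field (F : IntermediateField ℚ ℂ) (hF : Algebra.trdeg ℚ F ≤ 1) {r : ℕ}
    {g : Fin r → ℂˣ} (hg : Free (QC ℂ) g) {s : ℂ} (hs : s ≠ 0) {H : ℕ} (hH : 1 ≤ H) :
    {m : Fin r → ℤ | (∀ i, |m i| ≤ H) ∧
      IsAlgebraic F (Complex.exp (s * ((mon g m : ℂˣ) : ℂ)))}.ncard ^ 3 ≤ cst3 r * H ^ (r * 2) := by
  obtain ⟨θ, hθ, hal⟩ := exists_theta F hF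
  refine le_trans (Nat.pow_le_pow_left (Set.ncard_le_ncard ?_ (finite_boxP r H _)) _)
    (count_al hθ hg hs hH)
  rintro m ⟨h1, h2⟩
  exact ⟨h1, al_trans hal h2⟩

theorem cube_add (x y : ℕ) : (x + y) ^ 3 ≤ 4 * x ^ 3 + 4 * y ^ 3 := by
  zify
  nlinarith [mul_nonneg (add_nonneg (Nat.cast_nonneg (α := ℤ) x) (Nat.cast_nonneg (α := ℤ) y))
    (sq_nonneg ((x : ℤ) - y))]

/-- **Pairs of exponentials.** -/
theorem count_pairs {r : ℕ} {g : Fin r → ℂˣ} (hg : Free (QC ℂ) g) {s s' : ℂ} (hs : s ≠ 0)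
    (hs' : s' ≠ 0) {H : ℕ} (hH : 1 ≤ H) :
    {p : (Fin r → ℤ) × (Fin r → ℤ) | (∀ i, |p.1 i| ≤ H) ∧ (∀ i, |p.2 i| ≤ H) ∧
      ¬ AlgebraicIndependent ℚ ![Complex.exp (s * ((mon g p.1 : ℂˣ) : ℂ)),
        Complex.exp (s' * ((mon g p.2 : ℂˣ) : ℂ))]}.ncard ^ 3 ≤
      8 * 27 ^ r * cst3 r * H ^ (r * 5) := by
  classical
  let u : (Fin r → ℤ) → ℂ := fun m => Complex.exp (s * ((mon g m : ℂˣ) : ℂ))
  let v : (Fin r → ℤ) → ℂ := fun m => Complex.exp (s' * ((mon g m : ℂˣ) : ℂ))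
  let T : Finset ((Fin r → ℤ) × (Fin r → ℤ)) :=
    ((box r H) ×ˢ (box r H)).filter fun p => ¬ AlgebraicIndependent ℚ ![u p.1, v p.2]
  have hT : {p : (Fin r → ℤ) × (Fin r → ℤ) | (∀ i, |p.1 i| ≤ H) ∧ (∀ i, |p.2 i| ≤ H) ∧
      ¬ AlgebraicIndependent ℚ ![Complex.exp (s * ((mon g p.1 : ℂˣ) : ℂ)),
        Complex.exp (s' * ((mon g p.2 : ℂˣ) : ℂ))]} = (T : Set _) := by
    ext p
    rw [Set.mem_ofPred_eq, Finset.mem_coe, Finset.mem_filter, Finset.mem_product, mem_box, mem_box,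
      and_assoc]
  rw [hT, Set.ncard_coe_finset]
  -- the first number is algebraic
  let A : Finset (Fin r → ℤ) := (box r H).filter fun m => IsAlgebraic ℚ (u m)
  have hA : A.card ^ 3 ≤ cst3 r * H ^ (r * 2) := by
    refine exc_three_box Pool.Agent.H340R2.LW.transcendental_pi_complex hg hs hH A ?_ ?_
    · intro m hm
      exact mem_box.1 (Finset.mem_filter.1 hm).1
    · intro m hm
      exact Pool.Agent.Q258.TwoPar.al_of_alg (Finset.mem_filter.1 hm).2
  let T1 := T.filter fun p => IsAlgebraic ℚ (u p.1)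
  let T2 := T.filter fun p => ¬ IsAlgebraic ℚ (u p.1)
  have hT12 : T.card = T1.card + T2.card :=
    (Finset.card_filter_add_card_filter_not (s := T) (fun p => IsAlgebraic ℚ (u p.1))).symm
  have h1 : T1.card ≤ A.card * (box r H).card := by
    rw [← Finset.card_product]
    refine Finset.card_le_card fun p hp => ?_
    obtain ⟨h2, h3⟩ := Finset.mem_filter.1 hp
    have h4 := Finset.mem_product.1 (Finset.mem_filter.1 h2).1
    exact Finset.mem_product.2 ⟨Finset.mem_filter.2 ⟨h4.1, h3⟩, h4.2⟩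
  have hne : (box r H).Nonempty := ⟨0, mem_box.2 fun i => by simp⟩
  obtain ⟨m₀, hm₀, hmax⟩ := (box r H).exists_max_image
    (fun m => (T2.filter fun p => p.1 = m).card) hne
  have h2 : T2.card ≤ (box r H).card * (T2.filter fun p => p.1 = m₀).card := by
    rw [Finset.card_eq_sum_card_fiberwise (f := fun p => p.1) (t := box r H) (fun p hp => by
      have h3 := (Finset.mem_filter.1 (Finset.mem_coe.1 hp)).1
      exact (Finset.mem_product.1 (Finset.mem_filter.1 h3).1).1)]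
    refine (Finset.sum_le_card_nsmul _ _ _ hmax).trans ?_
    rw [smul_eq_mul]
  have h3 : (T2.filter fun p => p.1 = m₀).card ^ 3 ≤ cst3 r * H ^ (r * 2) := by
    rcases Finset.eq_empty_or_nonempty (T2.filter fun p => p.1 = m₀) with h | ⟨p₀, hp₀⟩
    · rw [h]
      simp
    obtain ⟨hp₀2, hp₀m⟩ := Finset.mem_filter.1 hp₀
    have hu : Transcendental ℚ (u m₀) := by
      have := (Finset.mem_filter.1 hp₀2).2
      rwa [hp₀m] at this
    have hinj : Set.InjOn (fun p : (Fin r → ℤ) × (Fin r → ℤ) => p.2)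
        ((T2.filter fun p => p.1 = m₀) : Set ((Fin r → ℤ) × (Fin r → ℤ))) := by
      intro p hp q hq h
      rw [Finset.mem_coe, Finset.mem_filter] at hp hq
      exact Prod.ext (hp.2.trans hq.2.symm) h
    rw [← Finset.card_image_of_injOn hinj]
    refine exc_three_box hu hg hs' hH _ ?_ ?_
    · intro m hm
      obtain ⟨p, hp, rfl⟩ := Finset.mem_image.1 hm
      have h4 := (Finset.mem_filter.1 (Finset.mem_filter.1 hp).1).1
      exact mem_box.1 (Finset.mem_product.1 (Finset.mem_filter.1 h4).1).2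
    · intro m hm
      obtain ⟨p, hp, rfl⟩ := Finset.mem_image.1 hm
      obtain ⟨hp2, hpm⟩ := Finset.mem_filter.1 hp
      have h4 := (Finset.mem_filter.1 (Finset.mem_filter.1 hp2).1).2
      rw [hpm] at h4
      exact Pool.Agent.Q258.TwoPar.dep_al hu h4
  have hbox : (box r H).card ≤ (3 * H) ^ r := by
    rw [card_box]
    exact Nat.pow_le_pow_left (by omega) _
  calc T.card ^ 3 ≤ (A.card * (box r H).card +
        (box r H).card * (T2.filter fun p => p.1 = m₀).card) ^ 3 :=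
        Nat.pow_le_pow_left (by omega) _
    _ ≤ 4 * (A.card * (box r H).card) ^ 3 +
        4 * ((box r H).card * (T2.filter fun p => p.1 = m₀).card) ^ 3 := cube_add _ _
    _ = 4 * (box r H).card ^ 3 * (A.card ^ 3) +
        4 * (box r H).card ^ 3 * ((T2.filter fun p => p.1 = m₀).card ^ 3) := by ring
    _ ≤ 4 * ((3 * H) ^ r) ^ 3 * (cst3 r * H ^ (r * 2)) +
        4 * ((3 * H) ^ r) ^ 3 * (cst3 r * H ^ (r * 2)) := by
        refine Nat.add_le_add ?_ ?_
        · exact Nat.mul_le_mul (Nat.mul_le_mul_left _ (Nat.pow_le_pow_left hbox _)) hA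
        · exact Nat.mul_le_mul (Nat.mul_le_mul_left _ (Nat.pow_le_pow_left hbox _)) h3
    _ = 8 * 27 ^ r * cst3 r * H ^ (r * 5) := by
        have e1 : ((3 * H) ^ r) ^ 3 = 27 ^ r * H ^ (r * 3) := by
          rw [← pow_mul, mul_pow, mul_comm r 3, pow_mul 3 3 r]
          norm_num
        have e2 : r * 5 = r * 3 + r * 2 := by ring
        rw [e1, e2, pow_add]
        ring

/-- the field of a transcendental number and a power product -/
theorem free_exp {r : ℕ} (β : Fin r → ℂ) (hβ : ∀ i, IsAlgebraic ℚ (β i))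
    (hli : LinearIndependent ℚ β) : Free (QC ℂ) (fun i => ex (β i)) := by
  intro m hm
  rw [cst_iff, mon_ex] at hm
  have halg : IsAlgebraic ℚ (∑ i, (m i : ℂ) * β i) :=
    mem_QC.1 (sum_mem fun i _ => mem_QC.2 ((isAlgebraic_intCast (m i)).mul (hβ i)))
  have h0 := Pool.Agent.Q258.TwoPar.exp_alg halg hm
  rw [Fintype.linearIndependent_iff] at hli
  have h1 := hli (fun i => (m i : ℚ)) (by
    rw [← h0]
    exact Finset.sum_congr rfl fun i _ => by
      rw [Algebra.smul_def]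
      simp)
  funext i
  exact_mod_cast h1 i

/-- rational functions of `t` with given zeros and poles -/
theorem count_lin {t : ℂ} (ht : Transcendental ℚ t) {r : ℕ} (a : Fin r → ℂ)
    (ha : ∀ i, IsAlgebraic ℚ (a i)) (hinj : Function.Injective a) {s : ℂ} (hs : s ≠ 0) (H : ℕ) :
    let E := {m : Fin r → ℤ | (∀ i, |m i| ≤ H) ∧
      ¬ AlgebraicIndependent ℚ ![t, Complex.exp (s * ∏ i, (t - a i) ^ m i)]}.ncard
    E * (E - 1) ≤ Nat.multichoose 4 r * (4 * H + 1) ^ r ∧
      (IsAlgebraic (IntermediateField.adjoin ℚ {t}) s → E * (E - 1) ≤ (r + 1) * (4 * H + 1) ^ r) := by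
  classical
  intro E
  have htk : Transcendental (QC ℂ) t := Pool.Agent.Q258.TwoPar.trans_QB ht
  let a' : Fin r → QC ℂ := fun i => ⟨a i, mem_QC.2 (ha i)⟩
  have ha' : Function.Injective a' := fun i j h => hinj (congrArg Subtype.val h)
  have hg := free_lin htk a' ha'
  have hval : ∀ m : Fin r → ℤ, ((mon (lin htk a') m : ℂˣ) : ℂ) = ∏ i, (t - a i) ^ m i := by
    intro m
    rw [mon_lin_val]
    rfl
  have hgθ : ∀ m, Al t ((mon (lin htk a') m : ℂˣ) : ℂ) := by
    intro m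
    rw [hval]
    have h1 : ∀ i, Al t ((t - a i) ^ m i) := by
      intro i
      have h2 : Al t (t - a i) :=
        (Pool.Agent.Q258.TwoPar.al_self t).sub (Pool.Agent.Q258.TwoPar.al_of_alg (ha i))
      rcases Int.eq_nat_or_neg (m i) with ⟨n, h | h⟩
      · rw [h, zpow_natCast]
        exact h2.pow n
      · rw [h, zpow_neg, zpow_natCast]
        exact (h2.pow n).inv
    exact Finset.prod_induction _ (Al t) (fun _ _ => IsAlgebraic.mul) isAlgebraic_one
      fun i _ => h1 i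
  have hfin := finite_boxP r H (fun m =>
    ¬ AlgebraicIndependent ℚ ![t, Complex.exp (s * ∏ i, (t - a i) ^ m i)])
  have hE : E = hfin.toFinset.card := Set.ncard_eq_toFinset_card _ hfin
  have key := exc_two ht hg hgθ hs hfin.toFinset (box r (2 * H))
    (diff_box fun m hm => (hfin.mem_toFinset.1 hm).1) (fun m hm => by
      rw [hval]
      exact Pool.Agent.Q258.TwoPar.dep_al ht (hfin.mem_toFinset.1 hm).2)
  rw [card_box] at key
  have e : 2 * (2 * H) + 1 = 4 * H + 1 := by ring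
  rw [e] at key
  rw [hE]
  exact key

end Pool.Agent.Q147.TG
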