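import Pool.Agent.Q147.TG.Main
import Pool.Agent.Q258.TwoPar.A
import Pool.Agent.Y787.CStrat

/-!
# Towers `a ^ (α ^ β)` with algebraic `β`
-/

set_option autoImplicit false

namespace Pool.Agent.Q147.TG

open Module
open Pool.Agent.Y787 (QC mem_QC HypC hyperplane)
open Pool.Agent.H301R2.SSE (QB mem_QB Lt Lt_log Lt_alg Lt_mul)

/-- the theorem of Gel'fond and Schneider -/
theorem gelfond_schneider {l : ℂ} (hl : l ≠ 0) (hal : IsAlgebraic ℚ (Complex.exp l)) {β : ℂ}
    (hβ : IsAlgebraic ℚ β) (h : IsAlgebraic ℚ (Complex.exp (β * l))) : ∃ q : ℚ, β = q := by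
  obtain ⟨q, hq⟩ := Pool.Agent.Q258.TwoPar.line hl hβ (isAlgebraic_one) one_ne_zero h
    (by rwa [one_mul])
  exact ⟨q, by rw [hq, mul_one]⟩

/-- rational powers of an algebraic number -/
theorem alg_rat {l : ℂ} (hal : IsAlgebraic ℚ (Complex.exp l)) (q : ℚ) :
    IsAlgebraic ℚ (Complex.exp (q * l)) := by
  have h1 : Complex.exp (q * l) ^ q.den = Complex.exp l ^ q.num := by
    rw [← Complex.exp_nat_mul, ← Complex.exp_int_mul]
    congr 1
    rw [← mul_assoc]
    congr 1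
    have : ((q.den : ℚ) : ℂ) * (q : ℂ) = ((q.num : ℚ) : ℂ) := by
      rw [← Rat.cast_mul, Rat.den_mul_eq_num]
    push_cast at this
    exact this
  have h2 : IsAlgebraic ℚ (Complex.exp l ^ q.num) := by
    rcases Int.eq_nat_or_neg q.num with ⟨n, h | h⟩
    · rw [h, zpow_natCast]
      exact hal.pow n
    · rw [h, zpow_neg, zpow_natCast]
      exact (hal.pow n).inv
  rw [← h1] at h2
  exact h2.of_pow q.den_pos

/-- the unit `e ^ z` -/
noncomputable def ex (z : ℂ) : ℂˣ := Units.mk0 (Complex.exp z) (Complex.exp_ne_zero z)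

theorem ex_val (z : ℂ) : ((ex z : ℂˣ) : ℂ) = Complex.exp z := rfl

theorem mon_ex {r : ℕ} (z : Fin r → ℂ) (m : Fin r → ℤ) :
    ((mon (fun i => ex (z i)) m : ℂˣ) : ℂ) = Complex.exp (∑ i, (m i : ℂ) * z i) := by
  rw [mon, Units.coe_prod, Complex.exp_sum]
  refine Finset.prod_congr rfl fun i _ => ?_
  rw [Units.val_zpow_eq_zpow_val, ex_val, ← Complex.exp_int_mul]

theorem free_tower {r : ℕ} {l : ℂ} (hl : l ≠ 0) (hal : IsAlgebraic ℚ (Complex.exp l))
    (β : Fin r → ℂ) (hβ : ∀ i, IsAlgebraic ℚ (β i))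
    (hli : LinearIndependent ℚ (Fin.cons 1 β : Fin (r + 1) → ℂ)) :
    Free (QC ℂ) (fun i => ex (β i * l)) := by
  intro m hm
  rw [cst_iff, mon_ex] at hm
  have e : ∑ i, (m i : ℂ) * (β i * l) = (∑ i, (m i : ℂ) * β i) * l := by
    rw [Finset.sum_mul]
    exact Finset.sum_congr rfl fun i _ => by ring
  rw [e] at hm
  have halg : IsAlgebraic ℚ (∑ i, (m i : ℂ) * β i) :=
    mem_QC.1 (sum_mem fun i _ => mem_QC.2 ((isAlgebraic_intCast (m i)).mul (hβ i)))
  obtain ⟨q, hq⟩ := gelfond_schneider hl hal halg hm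
  rw [Fintype.linearIndependent_iff] at hli
  have h1 := hli (Fin.cons (-q) fun i => (m i : ℚ)) (by
    rw [Fin.sum_univ_succ]
    simp only [Fin.cons_zero, Fin.cons_succ]
    have : ∑ i, ((m i : ℚ)) • β i = ∑ i, (m i : ℂ) * β i :=
      Finset.sum_congr rfl fun i _ => by
        rw [Algebra.smul_def]
        simp
    rw [this, hq, Algebra.smul_def]
    simp)
  funext i
  have := h1 i.succ
  rw [Fin.cons_succ] at this
  exact_mod_cast this

/-- `z` with `z` and `t z` in `Lt` -/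
noncomputable def plane (t : ℂ) : Submodule (QC ℂ) ℂ :=
  (hypSub (Cc := ℂ) Lt ![t, -1]).map (LinearMap.proj 0)

theorem mem_plane {t z : ℂ} (h0 : z ∈ Lt) (h1 : t * z ∈ Lt) : z ∈ plane t := by
  refine ⟨![z, t * z], ⟨fun i => ?_, ?_⟩, rfl⟩
  · fin_cases i
    · exact h0
    · exact h1
  · rw [Fin.sum_univ_two]
    simp

theorem li_pair {t : ℂ} (ht : Transcendental ℚ t) :
    LinearIndependent (QC ℂ) (![t, -1] : Fin 2 → ℂ) := by
  rw [LinearIndependent.pair_iff]
  intro a b hab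
  have ha : a = 0 := by
    by_contra ha
    apply ht
    have h1 : t = b / a := by
      have h2 : (a : ℂ) ≠ 0 := by
        intro h
        exact ha (Subtype.ext h)
      rw [eq_div_iff h2]
      have h3 : (a : ℂ) * t + (b : ℂ) * (-1) = 0 := hab
      linear_combination h3
    rw [h1]
    have h4 := (mem_QC.1 b.2).mul (mem_QC.1 a.2).inv
    rw [div_eq_mul_inv]
    exact h4
  refine ⟨ha, ?_⟩
  rw [ha, zero_smul, zero_add] at hab
  have h3 : (b : ℂ) * (-1) = 0 := hab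
  have h4 : (b : ℂ) = 0 := by linear_combination -h3
  exact Subtype.ext h4

theorem finrank_plane {t : ℂ} (ht : Transcendental ℚ t) :
    FiniteDimensional (QC ℂ) (plane t) ∧ finrank (QC ℂ) (plane t) ≤ 2 := by
  have hr := rank_hypSub (Lt := (Lt : Submodule (QC ℂ) ℂ)) _ (li_pair ht)
  have hfin : FiniteDimensional (QC ℂ) (hypSub (Lt : Submodule (QC ℂ) ℂ) ![t, -1]) :=
    Module.rank_lt_aleph0_iff.1 (lt_of_le_of_lt hr (Cardinal.natCast_lt_aleph0))
  have hfr : finrank (QC ℂ) (hypSub (Lt : Submodule (QC ℂ) ℂ) ![t, -1]) ≤ 2 :=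
    finrank_le_of_rank_le hr
  exact ⟨Module.Finite.map _ _, (Submodule.finrank_map_le _ _).trans hfr⟩

/-- the group of the powers with exponents in a number field -/
noncomputable def powGrp (K : IntermediateField ℚ ℂ) (l : ℂ) : Subgroup ℂˣ where
  carrier := {u | ∃ β ∈ K, u = ex (β * l)}
  one_mem' := ⟨0, K.zero_mem, Units.ext (by rw [Units.val_one, ex_val, zero_mul, Complex.exp_zero])⟩
  mul_mem' := by
    rintro _ _ ⟨a, ha, rfl⟩ ⟨b, hb, rfl⟩
    exact ⟨a + b, K.add_mem ha hb, Units.ext (by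
      rw [Units.val_mul, ex_val, ex_val, ex_val, ← Complex.exp_add, add_mul])⟩
  inv_mem' := by
    rintro _ ⟨a, ha, rfl⟩
    exact ⟨-a, K.neg_mem ha, Units.ext (by
      rw [Units.val_inv_eq_inv_val, ex_val, ex_val, ← Complex.exp_neg, neg_mul])⟩

theorem rank_powGrp (K : IntermediateField ℚ ℂ) [FiniteDimensional ℚ K] {l : ℂ}
    (hal : IsAlgebraic ℚ (Complex.exp l)) {r : ℕ} (hr : finrank ℚ K = r + 1) :
    RankLe (QC ℂ) (powGrp K l) r := by
  intro x hx
  choose β hβ hxβ using hx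
  have hdep : ¬ LinearIndependent ℤ (Fin.cons 1 (fun i => (⟨β i, hβ i⟩ : K)) : Fin (r + 2) → K) := by
    intro h
    rw [LinearIndependent.iff_fractionRing ℤ ℚ] at h
    have := h.fintype_card_le_finrank
    rw [Fintype.card_fin] at this
    omega
  rw [Fintype.not_linearIndependent_iff] at hdep
  obtain ⟨n, hn, i, hi⟩ := hdep
  rw [Fin.sum_univ_succ] at hn
  simp only [Fin.cons_zero, Fin.cons_succ] at hn
  have hn' : (n 0 : ℂ) + ∑ i : Fin (r + 1), (n i.succ : ℂ) * β i = 0 := by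
    have := congrArg (algebraMap K ℂ) hn
    rw [map_add, map_sum, map_zero] at this
    rw [← this]
    congr 1
    · simp
    · refine Finset.sum_congr rfl fun i _ => ?_
      rw [zsmul_eq_mul, map_mul, map_intCast]
      rfl
  refine ⟨fun i => n i.succ, fun h => ?_, ?_⟩
  · have h0 : ∀ i : Fin (r + 1), n i.succ = 0 := fun i => congrFun h i
    have h1 : n 0 = 0 := by
      have : ∑ i : Fin (r + 1), (n i.succ : ℂ) * β i = 0 :=
        Finset.sum_eq_zero fun i _ => by rw [h0 i]; simp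
      rw [this, add_zero] at hn'
      exact_mod_cast hn'
    refine hi ?_
    refine Fin.cases h1 (fun i => h0 i) i
  · rw [cst_iff]
    have e : ((∏ i : Fin (r + 1), x i ^ n i.succ : ℂˣ) : ℂ) =
        Complex.exp (((-(n 0) : ℤ) : ℚ) * l) := by
      have h1 : (∏ i : Fin (r + 1), x i ^ n i.succ : ℂˣ) =
          mon (fun i => ex (β i * l)) (fun i => n i.succ) := by
        rw [mon]
        exact Finset.prod_congr rfl fun i _ => by rw [hxβ]
      rw [h1, mon_ex]
      congr 1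
      have h2 : ∑ i : Fin (r + 1), (n i.succ : ℂ) * (β i * l) =
          (∑ i : Fin (r + 1), (n i.succ : ℂ) * β i) * l := by
        rw [Finset.sum_mul]
        exact Finset.sum_congr rfl fun i _ => by ring
      rw [h2]
      push_cast
      linear_combination l * hn'
    rw [e]
    exact alg_rat hal _

/-- pairwise different modulo the rational numbers -/
def Incongruent (B : Finset ℂ) : Prop := ∀ β ∈ B, ∀ β' ∈ B, ∀ q : ℚ, β - β' = q → β = β'

theorem card_pair (K : IntermediateField ℚ ℂ) [FiniteDimensional ℚ K] {l : ℂ} (hl : l ≠ 0)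
    (hal : IsAlgebraic ℚ (Complex.exp l)) {s : ℂ} (hs : s ≠ 0) {δ : ℂ} (hδ : IsAlgebraic ℚ δ)
    (hδq : ∀ q : ℚ, δ ≠ q) (B : Finset ℂ) (hBK : ∀ β ∈ B, β ∈ K)
    (hB : ∀ β ∈ B, s * Complex.exp (β * l) ∈ Lt ∧ s * Complex.exp ((β + δ) * l) ∈ Lt)
    (hinc : Incongruent B) : B.card ≤ finrank ℚ K := by
  classical
  obtain ⟨r, hr⟩ : ∃ r, finrank ℚ K = r + 1 := ⟨finrank ℚ K - 1, by
    have : 0 < finrank ℚ K := finrank_pos
    omega⟩
  have halgK : ∀ β ∈ B, IsAlgebraic ℚ β := fun β hβ => by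
    have h1 : IsAlgebraic ℚ (⟨β, hBK β hβ⟩ : K) := Algebra.IsAlgebraic.isAlgebraic _
    exact h1.algebraMap (A := ℂ)
  have ht : Transcendental ℚ (Complex.exp (δ * l)) := by
    intro h
    obtain ⟨q, hq⟩ := gelfond_schneider hl hal hδ h
    exact hδq q hq
  obtain ⟨hfin, hfr⟩ := finrank_plane ht
  have hsep : ∀ β ∈ B, ∀ β' ∈ B, Cst (QC ℂ) ((ex (β * l) / ex (β' * l) : ℂˣ) : ℂ) → β = β' := by
    intro β hβ β' hβ' h
    rw [cst_iff, Units.val_div_eq_div_val, ex_val, ex_val, ← Complex.exp_sub, ← sub_mul] at h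
    obtain ⟨q, hq⟩ := gelfond_schneider hl hal ((halgK β hβ).sub (halgK β' hβ')) h
    exact hinc β hβ β' hβ' q hq
  have hinj : Set.InjOn (fun β : ℂ => ex (β * l)) (B : Set ℂ) := by
    intro β hβ β' hβ' h
    refine hsep β hβ β' hβ' ?_
    have h : ex (β * l) = ex (β' * l) := h
    rw [h, div_self', Units.val_one]
    exact cst_one
  rw [hr, ← Finset.card_image_of_injOn hinj, ← Nat.multichoose_two]
  refine card_classes ac_QC r 2 (powGrp K l) (rank_powGrp K hal hr)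
    (shift (Units.mk0 s hs) (plane (Complex.exp (δ * l)))) ((finrank_shift_le _ _).trans hfr) _ ?_ ?_ ?_
  · intro u hu
    obtain ⟨β, hβ, rfl⟩ := Finset.mem_image.1 hu
    exact ⟨β, hBK β hβ, rfl⟩
  · intro u hu
    obtain ⟨β, hβ, rfl⟩ := Finset.mem_image.1 hu
    rw [mem_shift]
    obtain ⟨h1, h2⟩ := hB β hβ
    refine mem_plane h1 ?_
    have e : Complex.exp (δ * l) * (((Units.mk0 s hs : ℂˣ) : ℂ) * ((ex (β * l) : ℂˣ) : ℂ)) =
        s * Complex.exp ((β + δ) * l) := by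
      rw [ex_val, Units.val_mk0, add_mul, Complex.exp_add]
      ring
    rw [e]
    exact h2
  · intro u hu v hv huv
    obtain ⟨β, hβ, rfl⟩ := Finset.mem_image.1 hu
    obtain ⟨β', hβ', rfl⟩ := Finset.mem_image.1 hv
    rw [hsep β hβ β' hβ' huv]

/-- double counting of differences -/
theorem card_diff {G : Type*} [AddCommGroup G] [DecidableEq G] (B D : Finset G) (n : ℕ)
    (hD : ∀ a ∈ B, ∀ b ∈ B, a ≠ b → b - a ∈ D)
    (hn : ∀ δ ∈ D, (∃ a ∈ B, ∃ b ∈ B, a ≠ b ∧ b - a = δ) →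
      (B.filter fun a => a + δ ∈ B).card ≤ n) :
    B.card * (B.card - 1) ≤ n * D.card := by
  have h1 : ∀ δ ∈ B.offDiag.image (fun p : G × G => p.2 - p.1),
      (B.offDiag.filter fun p => p.2 - p.1 = δ).card ≤ n := by
    intro δ hδ
    obtain ⟨p, hp, hpδ⟩ := Finset.mem_image.1 hδ
    rw [Finset.mem_offDiag] at hp
    refine le_trans ?_ (hn δ (hpδ ▸ hD _ hp.1 _ hp.2.1 hp.2.2) ⟨p.1, hp.1, p.2, hp.2.1, hp.2.2, hpδ⟩)
    refine Finset.card_le_card_of_injOn (fun p => p.1) ?_ ?_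
    · intro q hq
      rw [Finset.mem_coe, Finset.mem_filter, Finset.mem_offDiag] at hq
      rw [Finset.mem_coe, Finset.mem_filter]
      refine ⟨hq.1.1, ?_⟩
      rw [← hq.2, add_sub_cancel]
      exact hq.1.2.1
    · intro q hq q' hq' h
      rw [Finset.mem_coe, Finset.mem_filter] at hq hq'
      have h : q.1 = q'.1 := h
      have h2 := hq.2.trans hq'.2.symm
      rw [h] at h2
      exact Prod.ext h (sub_left_injective h2)
  have h2 := Finset.card_le_mul_card_image B.offDiag _ h1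
  have h3 : B.card * (B.card - 1) = B.offDiag.card := by
    rw [Finset.offDiag_card, Nat.mul_sub_one]
  rw [h3]
  refine h2.trans (Nat.mul_le_mul_left _ (Finset.card_le_card ?_))
  intro δ hδ
  obtain ⟨p, hp, rfl⟩ := Finset.mem_image.1 hδ
  rw [Finset.mem_offDiag] at hp
  exact hD _ hp.1 _ hp.2.1 hp.2.2

theorem card_field (K : IntermediateField ℚ ℂ) [FiniteDimensional ℚ K] {l : ℂ} (hl : l ≠ 0)
    (hal : IsAlgebraic ℚ (Complex.exp l)) {s : ℂ} (hs : s ≠ 0) (F B : Finset ℂ) (hBF : B ⊆ F)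
    (hFK : ∀ β ∈ F, β ∈ K) (hB : ∀ β ∈ B, s * Complex.exp (β * l) ∈ Lt) (hinc : Incongruent B) :
    B.card * (B.card - 1) ≤
      finrank ℚ K * ((F ×ˢ F).image (fun p => p.2 - p.1)).card := by
  classical
  refine card_diff B _ _ (fun a ha b hb _ => ?_) ?_
  · exact Finset.mem_image.2 ⟨(a, b), Finset.mem_product.2 ⟨hBF ha, hBF hb⟩, rfl⟩
  · rintro δ - ⟨a, ha, b, hb, hab, rfl⟩
    have hb' := hFK b (hBF hb)
    have ha' := hFK a (hBF ha)
    refine card_pair K hl hal hs ?_ ?_ _ (fun β hβ => hFK β (hBF (Finset.mem_filter.1 hβ).1)) ?_ ?_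
      (δ := b - a)
    · have h1 : IsAlgebraic ℚ (⟨b - a, K.sub_mem hb' ha'⟩ : K) := Algebra.IsAlgebraic.isAlgebraic _
      exact h1.algebraMap (A := ℂ)
    · intro q hq
      exact hab (hinc b hb a ha q hq).symm
    · intro β hβ
      obtain ⟨h1, h2⟩ := Finset.mem_filter.1 hβ
      exact ⟨hB β h1, hB _ h2⟩
    · intro β hβ β' hβ'
      exact hinc β (Finset.mem_filter.1 hβ).1 β' (Finset.mem_filter.1 hβ').1

end Pool.Agent.Q147.TG
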