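import Pool.Agent.Q147.TG.Tower
import Pool.Agent.Q213.PT.Thr
import Pool.Agent.Q258.TwoPar.C

/-!
# Fields of transcendence degree one
-/

set_option autoImplicit false

namespace Pool.Agent.Q147.TG

open Module
open Pool.Agent.Y787 (QC mem_QC)
open Pool.Agent.W243.TD (Al prod1 prod2 al_exp_span)

/-- if no `n + 1` members of `B` are independent over the constants then `B` is small -/
theorem card_of_no_indep {k Ω : Type*} [Field k] [Field Ω] [Algebra k Ω] (hk : AC k Ω) {n r : ℕ}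
    {Γ : Subgroup Ωˣ} (hΓ : RankLe k Γ r) (B : Finset Ωˣ) (hB : ∀ x ∈ B, x ∈ Γ) (hs : Sep k B)
    (hno : ∀ w : Fin (n + 1) → Ωˣ, (∀ i, w i ∈ B) →
      LinearIndependent k (fun i => ((w i : Ωˣ) : Ω)) → False) :
    B.card ≤ Nat.multichoose n r := by
  classical
  let U : Set Ω := (fun x : Ωˣ => (x : Ω)) '' (B : Set Ωˣ)
  have hUf : U.Finite := B.finite_toSet.image _
  have hfin : FiniteDimensional k (Submodule.span k U) := FiniteDimensional.span_of_finite k hUf
  refine card_classes hk r n Γ hΓ (Submodule.span k U) ?_ B hB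
    (fun x hx => Submodule.subset_span ⟨x, hx, rfl⟩) hs
  by_contra hcon
  push Not at hcon
  obtain ⟨b, hbU, hbspan, hbli⟩ := exists_linearIndependent k U
  have hbf : b.Finite := hUf.subset hbU
  have : Fintype b := hbf.fintype
  have h1 : finrank k (Submodule.span k U) = Fintype.card b := by
    rw [← hbspan]
    have := finrank_span_eq_card hbli
    rwa [Subtype.range_coe] at this
  have h2 : Fintype.card (Fin (n + 1)) ≤ Fintype.card b := by
    rw [Fintype.card_fin]
    omega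
  obtain ⟨e⟩ := Function.Embedding.nonempty_of_card_le h2
  have h3 : ∀ i, ∃ x ∈ B, (x : Ω) = (e i : Ω) := fun i => hbU (e i).2
  choose w hwB hw using h3
  refine hno w hwB ?_
  have h4 := hbli.comp e e.injective
  have h5 : (fun i => ((w i : Ωˣ) : Ω)) = (fun x : b => (x : Ω)) ∘ e := funext hw
  rw [h5]
  exact h4

theorem li_rat {n : ℕ} {w : Fin n → ℂ} (h : LinearIndependent (QC ℂ) w) :
    LinearIndependent ℚ w := by
  refine h.restrict_scalars ?_
  intro a b hab
  have : (algebraMap (QC ℂ) ℂ) (a • (1 : QC ℂ)) = (algebraMap (QC ℂ) ℂ) (b • (1 : QC ℂ)) := by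
    have hab : a • (1 : QC ℂ) = b • (1 : QC ℂ) := hab
    rw [hab]
  rw [Algebra.smul_def, Algebra.smul_def, mul_one, mul_one] at this
  have h2 : ((a : ℚ) : ℂ) = ((b : ℚ) : ℂ) := by
    have e : ∀ q : ℚ, (algebraMap (QC ℂ) ℂ) (algebraMap ℚ (QC ℂ) q) = (q : ℂ) := fun q => by
      rw [← IsScalarTower.algebraMap_apply ℚ (QC ℂ) ℂ]
      simp
    rw [e, e] at this
    exact this
  exact_mod_cast h2

/-- **three multipliers**: few classes of `t` with `e ^ (s t h_i)` algebraic over `ℚ(θ)` -/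
theorem card_three {θ : ℂ} (hθ : Transcendental ℚ θ) {r : ℕ} {Γ : Subgroup ℂˣ}
    (hΓ : RankLe (QC ℂ) Γ r) {s : ℂ} (hs : s ≠ 0) (h : Fin 3 → ℂˣ)
    (hli : LinearIndependent (QC ℂ) (fun i => ((h i : ℂˣ) : ℂ))) (B : Finset ℂˣ)
    (hB : ∀ t ∈ B, t ∈ Γ)
    (hBL : ∀ t ∈ B, ∀ i, Al θ (Complex.exp (s * ((t : ℂ) * h i)))) (hsep : Sep (QC ℂ) B) :
    B.card ≤ Nat.multichoose 6 r := by
  refine card_of_no_indep ac_QC hΓ B hB hsep fun w hw hwli => ?_
  have h1 : LinearIndependent ℚ (fun i => s * ((h i : ℂˣ) : ℂ)) :=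
    (li_rat hli).map' (LinearMap.mulLeft ℚ s)
      (LinearMap.ker_eq_bot.2 (mul_right_injective₀ hs))
  refine Pool.Agent.Q213.PT.no73 hθ (fun j => ((w j : ℂˣ) : ℂ)) _ (li_rat hwli) h1 fun j p => ?_
  have := hBL (w j) (hw j) p
  have e : ((w j : ℂˣ) : ℂ) * (s * ((h p : ℂˣ) : ℂ)) = s * ((w j : ℂ) * h p) := by ring
  rw [e]
  exact this

/-- two multipliers, numbers algebraic over `ℚ(θ)` -/
theorem rank_pair_aux {θ L : ℂ} (c : ℕ)
    (hprod : ∀ (X W Y : Submodule ℚ ℂ) [FiniteDimensional ℚ X] [FiniteDimensional ℚ W]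
      [FiniteDimensional ℚ Y], (∀ z ∈ W, Al θ z) → (∀ z ∈ W, Al θ (Complex.exp (L * z))) →
      (∀ x ∈ X, ∀ z ∈ W, x * z ∈ Y) →
      finrank ℚ X * finrank ℚ W ≤ finrank ℚ Y + c * (finrank ℚ X * (finrank ℚ X - 1)))
    {δ : ℂ} (hδ : LinearIndependent ℚ ![(1 : ℂ), δ]) {n : ℕ} (w : Fin n → ℂ)
    (hw : LinearIndependent ℚ w) (h0 : ∀ i, Al θ (w i)) (h1 : ∀ i, Al θ (δ * w i))
    (h2 : ∀ i, Al θ (Complex.exp (L * w i))) (h3 : ∀ i, Al θ (Complex.exp (L * (δ * w i)))) :
    n ≤ 2 * c := by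
  classical
  let f : Fin n ⊕ Fin n → ℂ := Sum.elim w (fun i => δ * w i)
  let W : Submodule ℚ ℂ := Submodule.span ℚ (Set.range f)
  let A : Submodule ℚ ℂ := Submodule.span ℚ (Set.range w)
  let X : Submodule ℚ ℂ := Submodule.span ℚ (Set.range ![(1 : ℂ), δ])
  have hWf : FiniteDimensional ℚ W := FiniteDimensional.span_of_finite ℚ (Set.finite_range _)
  have hAf : FiniteDimensional ℚ A := FiniteDimensional.span_of_finite ℚ (Set.finite_range _)
  have hXf : FiniteDimensional ℚ X := FiniteDimensional.span_of_finite ℚ (Set.finite_range _)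
  let μ : ℂ →ₗ[ℚ] ℂ := LinearMap.mulLeft ℚ δ
  have hδ0 : δ ≠ 0 := hδ.ne_zero 1
  have hμ : Function.Injective μ := mul_right_injective₀ hδ0
  let Y : Submodule ℚ ℂ := W ⊔ W.map μ
  have hWmf : FiniteDimensional ℚ (W.map μ) := Module.Finite.map _ _
  have hYf : FiniteDimensional ℚ Y := inferInstance
  have hX : finrank ℚ X = 2 := by
    rw [finrank_span_eq_card hδ, Fintype.card_fin]
  have hA : finrank ℚ A = n := by
    rw [finrank_span_eq_card hw, Fintype.card_fin]
  have hmem : ∀ z ∈ W, Al θ z := by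
    intro z hz
    induction hz using Submodule.span_induction with
    | mem x hx =>
      obtain ⟨i, rfl⟩ := hx
      rcases i with i | i
      · exact h0 i
      · exact h1 i
    | zero => exact isAlgebraic_zero
    | add u v _ _ hu hv => exact hu.add hv
    | smul a u _ hu =>
      rw [Rat.smul_def]
      refine (Pool.Agent.Q258.TwoPar.al_of_alg ?_).mul hu
      have := isAlgebraic_algebraMap (R := ℚ) (A := ℂ) a
      simpa using this
  have hexp : ∀ z ∈ W, Al θ (Complex.exp (L * z)) := by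
    intro z hz
    have h5 : L * z ∈ Submodule.span ℚ (Set.range fun i => L * f i) := by
      have := Submodule.mem_map_of_mem (f := LinearMap.mulLeft ℚ L) hz
      rw [Submodule.map_span, ← Set.range_comp] at this
      exact this
    refine al_exp_span (f := fun i => L * f i) ?_ _ h5
    rintro (i | i)
    · exact h2 i
    · exact h3 i
  have hXW : ∀ x ∈ X, ∀ z ∈ W, x * z ∈ Y := by
    intro x hx z hz
    induction hx using Submodule.span_induction with
    | mem x hx =>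
      obtain ⟨i, rfl⟩ := hx
      fin_cases i
      · change (1 : ℂ) * z ∈ Y
        rw [one_mul]
        exact Submodule.mem_sup_left hz
      · exact Submodule.mem_sup_right ⟨z, hz, rfl⟩
    | zero => rw [zero_mul]; exact Y.zero_mem
    | add u v _ _ hu hv => rw [add_mul]; exact Y.add_mem hu hv
    | smul a u _ hu => rw [smul_mul_assoc]; exact Y.smul_mem a hu
  have key := hprod X W Y hmem hexp hXW
  rw [hX] at key
  have hsum := Submodule.finrank_sup_add_finrank_inf_eq W (W.map μ)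
  have hle : finrank ℚ (W.map μ) ≤ finrank ℚ W := Submodule.finrank_map_le _ _
  have hAW : A.map μ ≤ W ⊓ W.map μ := by
    refine le_inf ?_ (Submodule.map_mono ?_)
    · rw [Submodule.map_span_le]
      rintro _ ⟨i, rfl⟩
      exact Submodule.subset_span ⟨Sum.inr i, rfl⟩
    · rw [Submodule.span_le]
      rintro _ ⟨i, rfl⟩
      exact Submodule.subset_span ⟨Sum.inl i, rfl⟩
  have hinf : n ≤ finrank ℚ ((W ⊓ W.map μ : Submodule ℚ ℂ)) := by
    have h6 : finrank ℚ (A.map μ) = finrank ℚ A :=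
      (Submodule.equivMapOfInjective μ hμ A).finrank_eq.symm
    rw [← hA, ← h6]
    exact Submodule.finrank_mono hAW
  change 2 * finrank ℚ W ≤ finrank ℚ ((W ⊔ W.map μ : Submodule ℚ ℂ)) + c * (2 * (2 - 1)) at key
  omega

theorem rank_pair2 {θ L : ℂ} (hθ : Transcendental ℚ θ) (hL : L ≠ 0)
    {δ : ℂ} (hδ : LinearIndependent ℚ ![(1 : ℂ), δ]) {n : ℕ} (w : Fin n → ℂ)
    (hw : LinearIndependent ℚ w) (h0 : ∀ i, Al θ (w i)) (h1 : ∀ i, Al θ (δ * w i))
    (h2 : ∀ i, Al θ (Complex.exp (L * w i))) (h3 : ∀ i, Al θ (Complex.exp (L * (δ * w i)))) :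
    n ≤ 4 := by
  refine rank_pair_aux (L := L) 2 ?_ hδ w hw h0 h1 h2 h3
  intro X W Y _ _ _ a b c
  exact prod2 hθ hL X W Y a b c

theorem rank_pair1 {θ : ℂ} (hθ : Transcendental ℚ θ)
    {δ : ℂ} (hδ : LinearIndependent ℚ ![(1 : ℂ), δ]) {n : ℕ} (w : Fin n → ℂ)
    (hw : LinearIndependent ℚ w) (h0 : ∀ i, Al θ (w i)) (h1 : ∀ i, Al θ (δ * w i))
    (h2 : ∀ i, Al θ (Complex.exp (w i))) (h3 : ∀ i, Al θ (Complex.exp (δ * w i))) :
    n ≤ 2 := by
  refine rank_pair_aux (L := 1) 1 ?_ hδ w hw h0 h1 (fun i => by rw [one_mul]; exact h2 i)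
    (fun i => by rw [one_mul]; exact h3 i)
  intro X W Y _ _ _ a b c
  rw [one_mul]
  exact prod1 hθ X W Y a (fun z hz => by have := b z hz; rwa [one_mul] at this) c

end Pool.Agent.Q147.TG
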