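import Pool.Agent.Q147.TG.Tr

/-!
# Counting in boxes, transcendence degree one
-/

set_option autoImplicit false

namespace Pool.Agent.Q147.TG

open Module
open Pool.Agent.Y787 (QC mem_QC)
open Pool.Agent.W243.TD (Al)

theorem mon_inv_fun {G : Type*} [CommGroup G] {r : ℕ} (g : Fin r → G) (m : Fin r → ℤ) :
    mon (fun i => (g i)⁻¹) m = (mon g m)⁻¹ := by
  simp only [mon, inv_zpow, Finset.prod_inv_distrib]

theorem free_inv {k Ω : Type*} [Field k] [Field Ω] [Algebra k Ω] {r : ℕ} {g : Fin r → Ωˣ}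
    (hg : Free k g) : Free k (fun i => (g i)⁻¹) := by
  intro m hm
  rw [mon_inv_fun, ← mon_neg] at hm
  exact neg_eq_zero.1 (hg _ hm)

/-- exponents in a finite set, three multipliers -/
theorem exc_three {θ : ℂ} (hθ : Transcendental ℚ θ) {r : ℕ} {g : Fin r → ℂˣ}
    (hg : Free (QC ℂ) g) {s : ℂ} (hs : s ≠ 0) (S D : Finset (Fin r → ℤ))
    (hSD : ∀ a ∈ S, ∀ b ∈ S, b - a ∈ D)
    (hS : ∀ m ∈ S, Al θ (Complex.exp (s * ((mon g m : ℂˣ) : ℂ)))) :
    S.card ^ 3 ≤ Nat.multichoose 6 r * D.card ^ 2 + 3 * (Nat.multichoose 2 r * S.card ^ 2) := by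
  classical
  let A : Finset (Fin 3 → Fin r → ℤ) := Fintype.piFinset fun _ : Fin 3 => S
  have hA : A.card = S.card ^ 3 := by
    rw [Fintype.card_piFinset, Finset.prod_const, Finset.card_univ, Fintype.card_fin]
  have hmem : ∀ τ ∈ A, ∀ i, τ i ∈ S := fun τ hτ i => Fintype.mem_piFinset.1 hτ i
  rw [← hA, ← Finset.card_filter_add_card_filter_not (s := A)
    (fun τ => LinearIndependent (QC ℂ) (fun i => ((mon g (τ i) : ℂˣ) : ℂ)))]
  refine Nat.add_le_add ?_ ?_
  · set T := A.filter fun τ => LinearIndependent (QC ℂ) (fun i => ((mon g (τ i) : ℂˣ) : ℂ)) with hT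
    have hTS : ∀ τ ∈ T, ∀ i, τ i ∈ S := fun τ hτ => hmem τ (Finset.mem_filter.1 hτ).1
    have h1 : ∀ δ ∈ T.image (fun τ (i : Fin 2) => τ i.succ - τ 0),
        (T.filter fun τ => (fun (i : Fin 2) => τ i.succ - τ 0) = δ).card ≤ Nat.multichoose 6 r := by
      intro δ hδ
      obtain ⟨τ₀, hτ₀, hδ₀⟩ := Finset.mem_image.1 hδ
      have hinj : Set.InjOn (fun τ : Fin 3 → Fin r → ℤ => mon g (τ 0))
          ((T.filter fun τ => (fun (i : Fin 2) => τ i.succ - τ 0) = δ) :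
            Set (Fin 3 → Fin r → ℤ)) := by
        intro τ hτ τ' hτ' h
        rw [Finset.mem_coe, Finset.mem_filter] at hτ hτ'
        have h0 : τ 0 = τ' 0 := hg.injective h
        funext i
        refine Fin.cases h0 (fun i => ?_) i
        have h3 : τ i.succ - τ 0 = δ i := congrFun hτ.2 i
        have h4 : τ' i.succ - τ' 0 = δ i := congrFun hτ'.2 i
        rw [sub_eq_iff_eq_add] at h3 h4
        rw [h3, h4, h0]
      rw [← Finset.card_image_of_injOn hinj]
      let h : Fin 3 → ℂˣ := Fin.cons 1 fun i => mon g (δ i)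
      have hh : ∀ τ : Fin 3 → Fin r → ℤ, (fun (i : Fin 2) => τ i.succ - τ 0) = δ →
          ∀ i, mon g (τ i) = mon g (τ 0) * h i := by
        intro τ hτ i
        refine Fin.cases ?_ (fun i => ?_) i
        · change _ = _ * (1 : ℂˣ)
          rw [mul_one]
        · change _ = _ * mon g (δ i)
          rw [← hτ, mon_sub, mul_div_cancel]
      have hli : LinearIndependent (QC ℂ) (fun i => ((h i : ℂˣ) : ℂ)) := by
        refine li_scale (h := fun i => mon g (τ₀ i)) (mon g (τ₀ 0))⁻¹ (fun i => ?_)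
          (Finset.mem_filter.1 hτ₀).2
        rw [hh τ₀ hδ₀ i, ← mul_assoc, inv_mul_cancel, one_mul]
      refine card_three hθ (rankLe_grp g) hs h hli _ ?_ ?_ ?_
      · intro t ht
        obtain ⟨τ, -, rfl⟩ := Finset.mem_image.1 ht
        exact ⟨_, rfl⟩
      · intro t ht i
        obtain ⟨τ, hτ, rfl⟩ := Finset.mem_image.1 ht
        obtain ⟨hτT, hτδ⟩ := Finset.mem_filter.1 hτ
        rw [← Units.val_mul, ← hh τ hτδ i]
        exact hS _ (hTS τ hτT i)
      · intro x hx y hy hxy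
        obtain ⟨τ, -, rfl⟩ := Finset.mem_image.1 hx
        obtain ⟨τ', -, rfl⟩ := Finset.mem_image.1 hy
        rw [hg.inj hxy]
    refine (Finset.card_le_mul_card_image _ _ h1).trans (Nat.mul_le_mul_left _ ?_)
    refine (Finset.card_le_card (t := Fintype.piFinset fun _ : Fin 2 => D) ?_).trans ?_
    · intro σ hσ
      obtain ⟨τ, hτ, rfl⟩ := Finset.mem_image.1 hσ
      rw [Fintype.mem_piFinset]
      exact fun i => hSD _ (hTS τ hτ 0) _ (hTS τ hτ _)
    · rw [Fintype.card_piFinset, Finset.prod_const, Finset.card_univ, Fintype.card_fin]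
  · refine (card_dep (N := 2) ac_QC (free_inv hg) S _ ?_).trans (le_of_eq rfl)
    intro τ hτ
    refine ⟨hmem τ (Finset.mem_of_mem_filter τ hτ), fun hcon => (Finset.mem_filter.1 hτ).2 ?_⟩
    have e : (fun i => (((mon (fun i => (g i)⁻¹) (τ i))⁻¹ : ℂˣ) : ℂ)) =
        fun i => ((mon g (τ i) : ℂˣ) : ℂ) := by
      funext i
      rw [mon_inv_fun, inv_inv]
    rwa [e] at hcon

/-- the constant -/
def cst3 (r : ℕ) : ℕ := (2 * (3 * Nat.multichoose 2 r)) ^ 3 + 2 * Nat.multichoose 6 r * 5 ^ (r * 2)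

theorem diff_box {r H : ℕ} {S : Finset (Fin r → ℤ)} (hSb : ∀ m ∈ S, ∀ i, |m i| ≤ H) :
    ∀ a ∈ S, ∀ b ∈ S, b - a ∈ box r (2 * H) := by
  intro a ha b hb
  rw [mem_box]
  intro i
  have h1 := hSb a ha i
  have h2 := hSb b hb i
  rw [Pi.sub_apply, abs_le]
  rw [abs_le] at h1 h2
  push_cast
  constructor <;> linarith [h1.1, h1.2, h2.1, h2.2]

theorem exc_three_box {θ : ℂ} (hθ : Transcendental ℚ θ) {r : ℕ} {g : Fin r → ℂˣ}
    (hg : Free (QC ℂ) g) {s : ℂ} (hs : s ≠ 0) {H : ℕ} (hH : 1 ≤ H) (S : Finset (Fin r → ℤ))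
    (hSb : ∀ m ∈ S, ∀ i, |m i| ≤ H)
    (hS : ∀ m ∈ S, Al θ (Complex.exp (s * ((mon g m : ℂˣ) : ℂ)))) :
    S.card ^ 3 ≤ cst3 r * H ^ (r * 2) := by
  have h1 := exc_three hθ hg hs S (box r (2 * H)) (diff_box hSb) hS
  rw [card_box] at h1
  have h2 : ((2 * (2 * H) + 1) ^ r) ^ 2 ≤ 5 ^ (r * 2) * H ^ (r * 2) := by
    rw [← pow_mul, ← mul_pow]
    exact Nat.pow_le_pow_left (by omega) _
  have h3 : 1 ≤ H ^ (r * 2) := Nat.one_le_pow _ _ hH
  generalize hc : 3 * Nat.multichoose 2 r = c at *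
  generalize hK : Nat.multichoose 6 r = K at *
  have h4 : S.card ^ 3 ≤ K * (5 ^ (r * 2) * H ^ (r * 2)) + c * S.card ^ 2 := by
    refine h1.trans (Nat.add_le_add (Nat.mul_le_mul_left _ h2) (le_of_eq ?_))
    rw [← mul_assoc, hc]
  rw [cst3, hc, hK]
  rcases le_or_gt S.card (2 * c) with h5 | h5
  · calc S.card ^ 3 ≤ (2 * c) ^ 3 := Nat.pow_le_pow_left h5 _
      _ ≤ ((2 * c) ^ 3 + 2 * K * 5 ^ (r * 2)) * 1 := by rw [mul_one]; exact Nat.le_add_right _ _
      _ ≤ _ := Nat.mul_le_mul_left _ h3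
  · have h6 : 2 * (c * S.card ^ 2) ≤ S.card ^ 3 := by
      calc 2 * (c * S.card ^ 2) = (2 * c) * S.card ^ 2 := by ring
        _ ≤ S.card * S.card ^ 2 := Nat.mul_le_mul_right _ h5.le
        _ = S.card ^ 3 := by ring
    have h7 : S.card ^ 3 ≤ 2 * (K * (5 ^ (r * 2) * H ^ (r * 2))) := by omega
    refine h7.trans ?_
    rw [add_mul]
    refine le_trans (le_of_eq ?_) (Nat.le_add_left _ _)
    ring

theorem li_one {δ : ℂ} (hδ : Transcendental ℚ δ) : LinearIndependent ℚ ![(1 : ℂ), δ] := by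
  rw [LinearIndependent.pair_iff]
  intro a b hab
  rw [Rat.smul_def, Rat.smul_def, mul_one] at hab
  have hb : b = 0 := by
    by_contra hb
    apply hδ
    have hb' : (b : ℂ) ≠ 0 := by exact_mod_cast hb
    have h1 : δ = -(a : ℂ) * (b : ℂ)⁻¹ := by
      field_simp
      linear_combination hab
    have hq : ∀ q : ℚ, IsAlgebraic ℚ (q : ℂ) := fun q => by
      have := isAlgebraic_algebraMap (R := ℚ) (A := ℂ) q
      simpa using this
    rw [h1]
    exact (hq a).neg.mul (hq b).inv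
  rw [hb] at hab
  refine ⟨?_, hb⟩
  have : (a : ℂ) = 0 := by simpa using hab
  exact_mod_cast this

/-- exponents in a finite set, numbers algebraic over `ℚ(θ)` -/
theorem exc_two {θ : ℂ} (hθ : Transcendental ℚ θ) {r : ℕ} {g : Fin r → ℂˣ}
    (hg : Free (QC ℂ) g) (hgθ : ∀ m, Al θ ((mon g m : ℂˣ) : ℂ)) {s : ℂ} (hs : s ≠ 0)
    (S D : Finset (Fin r → ℤ)) (hSD : ∀ a ∈ S, ∀ b ∈ S, b - a ∈ D)
    (hS : ∀ m ∈ S, Al θ (Complex.exp (s * ((mon g m : ℂˣ) : ℂ)))) :
    S.card * (S.card - 1) ≤ Nat.multichoose 4 r * D.card ∧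
      (Al θ s → S.card * (S.card - 1) ≤ (r + 1) * D.card) := by
  classical
  have main : ∀ n : ℕ, (∀ δ : Fin r → ℤ, δ ≠ 0 → ∀ w : Fin (n + 1) → ℂˣ,
      (∀ i, w i ∈ grp g) → (∀ i, Al θ (Complex.exp (s * (w i : ℂ)))) →
      (∀ i, Al θ (Complex.exp (s * ((mon g δ : ℂˣ) * (w i : ℂ))))) →
      LinearIndependent (QC ℂ) (fun i => ((w i : ℂˣ) : ℂ)) → False) →
      S.card * (S.card - 1) ≤ Nat.multichoose n r * D.card := by
    intro n hn
    refine card_diff S D _ (fun a ha b hb _ => hSD a ha b hb) ?_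
    rintro δ - ⟨a, ha, b, hb, hab, rfl⟩
    have hδ0 : b - a ≠ 0 := fun h => hab (sub_eq_zero.1 h).symm
    rw [← Finset.card_image_of_injective _ hg.injective]
    refine card_of_no_indep ac_QC (rankLe_grp g) _ ?_ (hg.sep _) fun w hw hli => ?_
    · intro x hx
      obtain ⟨m, -, rfl⟩ := Finset.mem_image.1 hx
      exact ⟨m, rfl⟩
    · have h1 : ∀ i, ∃ m, (m ∈ S ∧ m + (b - a) ∈ S) ∧ mon g m = w i := by
        intro i
        obtain ⟨m, hm, hmw⟩ := Finset.mem_image.1 (hw i)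
        exact ⟨m, Finset.mem_filter.1 hm, hmw⟩
      choose m hm hmw using h1
      refine hn (b - a) hδ0 w (fun i => ⟨m i, hmw i⟩) (fun i => ?_) (fun i => ?_) hli
      · rw [← hmw i]
        exact hS _ (hm i).1
      · rw [← hmw i, ← Units.val_mul, ← mon_add, add_comm]
        exact hS _ (hm i).2
  constructor
  · refine main 4 fun δ hδ w hw h2 h3 hli => ?_
    have hδt : Transcendental ℚ ((mon g δ : ℂˣ) : ℂ) := fun h => hδ (hg δ (cst_iff.2 h))
    have hwθ : ∀ i, Al θ (w i : ℂ) := by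
      intro i
      obtain ⟨m, hm⟩ := hw i
      rw [← hm]
      exact hgθ m
    have := rank_pair2 hθ hs (li_one hδt) _ (li_rat hli) hwθ
      (fun i => (hgθ δ).mul (hwθ i)) h2 h3
    omega
  · intro hsθ
    rw [← Nat.multichoose_two]
    refine main 2 fun δ hδ w hw h2 h3 hli => ?_
    have hδt : Transcendental ℚ ((mon g δ : ℂˣ) : ℂ) := fun h => hδ (hg δ (cst_iff.2 h))
    have hwθ : ∀ i, Al θ (w i : ℂ) := by
      intro i
      obtain ⟨m, hm⟩ := hw i
      rw [← hm]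
      exact hgθ m
    have hli' : LinearIndependent ℚ (fun i => s * ((w i : ℂˣ) : ℂ)) :=
      (li_rat hli).map' (LinearMap.mulLeft ℚ s)
        (LinearMap.ker_eq_bot.2 (mul_right_injective₀ hs))
    have := rank_pair1 hθ (li_one hδt) _ hli' (fun i => hsθ.mul (hwθ i))
      (fun i => (hgθ δ).mul (hsθ.mul (hwθ i))) h2 (fun i => by
        have := h3 i
        have e : ((mon g δ : ℂˣ) : ℂ) * (s * (w i : ℂ)) = s * ((mon g δ : ℂˣ) * (w i : ℂ)) := by ring
        rw [e]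
        exact this)
    omega

end Pool.Agent.Q147.TG
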