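import Pool.Agent.Q147.GP.Place

/-!
# Multiplicative groups and spaces over an algebraically closed field

`k` is a field, algebraically closed in `Ω`.  A subgroup of `Ω ˣ` of rank `r` modulo `k ˣ` meets a
`k`-space of dimension `D` in at most `multichoose D r = binom (D + r - 1) r` classes modulo `k ˣ`.
-/

set_option autoImplicit false

namespace Pool.Agent.Q147.TG

open Module

variable {k Ω : Type*} [Field k] [Field Ω] [Algebra k Ω]

/-- `x` is a constant -/
def Cst (k : Type*) {Ω : Type*} [Field k] [Field Ω] [Algebra k Ω] (x : Ω) : Prop :=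
  x ∈ Set.range (algebraMap k Ω)

/-- `k` is algebraically closed in `Ω` -/
def AC (k Ω : Type*) [Field k] [Field Ω] [Algebra k Ω] : Prop :=
  ∀ x : Ω, IsAlgebraic k x → Cst k x

/-- any `r + 1` elements of `Γ` are multiplicatively dependent modulo the constants -/
def RankLe (k : Type*) {Ω : Type*} [Field k] [Field Ω] [Algebra k Ω] (Γ : Subgroup Ωˣ) (r : ℕ) :
    Prop :=
  ∀ x : Fin (r + 1) → Ωˣ, (∀ i, x i ∈ Γ) →
    ∃ m : Fin (r + 1) → ℤ, m ≠ 0 ∧ Cst k ((∏ i, (x i) ^ (m i) : Ωˣ) : Ω)

/-- a place of `Ω` over `k` with a given zero -/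
theorem exists_place (hk : AC k Ω) (u : Ωˣ) (hu : ¬ Cst k (u : Ω)) :
    ∃ V : ValuationSubring Ω, (∀ c : k, c ≠ 0 → V.valuation (algebraMap k Ω c) = 1) ∧
      V.valuation (u : Ω) < 1 := by
  have htr : Transcendental k (u : Ω) := fun h => hu (hk _ h)
  let φ : Polynomial k →+* Ω := (Polynomial.aeval (u : Ω)).toRingHom
  have hφ : Function.Injective φ := by
    have := transcendental_iff_injective.1 htr
    exact this
  have hP : (Ideal.span {(Polynomial.X : Polynomial k)}).IsPrime :=
    (Ideal.span_singleton_prime Polynomial.X_ne_zero).2 Polynomial.prime_X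
  obtain ⟨V, hV⟩ := Pool.Agent.Q147.GP.place_of_prime φ hφ (Ideal.span {Polynomial.X})
  refine ⟨V, fun c hc => ?_, ?_⟩
  · have e : φ (Polynomial.C c) = algebraMap k Ω c := by
      change Polynomial.aeval (u : Ω) (Polynomial.C c) = _
      rw [Polynomial.aeval_C]
    obtain ⟨h1, h2⟩ := hV (Polynomial.C c)
    rw [e] at h1 h2
    refine le_antisymm ((V.valuation_le_one_iff _).2 h1) (not_lt.1 fun h3 => ?_)
    have h4 := h2.1 h3
    rw [Ideal.mem_span_singleton, Polynomial.X_dvd_iff, Polynomial.coeff_C_zero] at h4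
    exact hc h4
  · have e : φ Polynomial.X = (u : Ω) := by
      change Polynomial.aeval (u : Ω) Polynomial.X = _
      rw [Polynomial.aeval_X]
    have := (hV Polynomial.X).2.2 (Ideal.mem_span_singleton_self _)
    rwa [e] at this

variable {V : ValuationSubring Ω} (hV : ∀ c : k, c ≠ 0 → V.valuation (algebraMap k Ω c) = 1)

include hV in
theorem val_smul_le (c : k) (y : Ω) : V.valuation (c • y) ≤ V.valuation y := by
  rw [Algebra.smul_def, map_mul]
  by_cases hc : c = 0
  · rw [hc, map_zero, map_zero, zero_mul]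
    exact zero_le
  · rw [hV c hc, one_mul]

/-- the elements of a space whose valuation is less than `γ` -/
def ltSub (W : Submodule k Ω) (γ : V.ValueGroup) (hγ : γ ≠ 0) : Submodule k Ω where
  carrier := {y | y ∈ W ∧ V.valuation y < γ}
  zero_mem' := ⟨W.zero_mem, by rw [map_zero]; exact zero_lt_iff.2 hγ⟩
  add_mem' := fun {a b} ha hb => ⟨W.add_mem ha.1 hb.1, V.valuation.map_add_lt ha.2 hb.2⟩
  smul_mem' := fun c y hy => ⟨W.smul_mem c hy.1, lt_of_le_of_lt (val_smul_le hV c y) hy.2⟩

theorem ltSub_le (W : Submodule k Ω) (γ : V.ValueGroup) (hγ : γ ≠ 0) :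
    ltSub hV W γ hγ ≤ W := fun _ h => h.1

/-- it is smaller if some element has the valuation `γ` -/
theorem finrank_ltSub {W : Submodule k Ω} [FiniteDimensional k W] {γ : V.ValueGroup} (hγ : γ ≠ 0)
    {x : Ω} (hx : x ∈ W) (hxγ : V.valuation x = γ) :
    finrank k (ltSub hV W γ hγ) < finrank k W := by
  refine Submodule.finrank_lt_finrank_of_lt (lt_of_le_of_ne (ltSub_le hV W γ hγ) fun h => ?_)
  have : x ∈ ltSub hV W γ hγ := by rw [h]; exact hx
  exact absurd hxγ (ne_of_lt this.2)

include hV in
/-- elements of a space with different valuations -/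
theorem card_values (n : ℕ) : ∀ (W : Submodule k Ω) [FiniteDimensional k W], finrank k W ≤ n →
    ∀ T : Finset Ω, (∀ x ∈ T, x ∈ W ∧ x ≠ 0) →
      Set.InjOn (fun x => V.valuation x) (T : Set Ω) → T.card ≤ n := by
  classical
  induction n with
  | zero =>
    intro W _ hW T hT _
    have h0 : W = ⊥ := Submodule.finrank_eq_zero.1 (Nat.le_zero.1 hW)
    rw [Nat.le_zero, Finset.card_eq_zero, Finset.eq_empty_iff_forall_notMem]
    intro x hx
    have := hT x hx
    rw [h0, Submodule.mem_bot] at this
    exact this.2 this.1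
  | succ n ih =>
    intro W _ hW T hT hinj
    rcases T.eq_empty_or_nonempty with rfl | hne
    · simp
    obtain ⟨x, hx, hmax⟩ := T.exists_max_image (fun x => V.valuation x) hne
    have hγ : V.valuation x ≠ 0 := (Valuation.ne_zero_iff _).2 (hT x hx).2
    have hfin : FiniteDimensional k (ltSub hV W _ hγ) :=
      Submodule.finiteDimensional_of_le (ltSub_le hV W _ hγ)
    have h1 := finrank_ltSub hV hγ (hT x hx).1 rfl
    have h2 := ih (ltSub hV W _ hγ) (by omega) (T.erase x) (fun y hy => ?_) (hinj.mono (by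
      intro y hy
      exact Finset.mem_of_mem_erase hy))
    · rw [Finset.card_erase_of_mem hx] at h2
      omega
    · have hy' := Finset.mem_of_mem_erase hy
      refine ⟨⟨(hT y hy').1, lt_of_le_of_ne (hmax y hy') fun h => ?_⟩, (hT y hy').2⟩
      exact (Finset.ne_of_mem_erase hy) (hinj hy' hx h)

end Pool.Agent.Q147.TG
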